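import Pool.Agent.R595.RR.Main

/-!
# Chains of elements which turn back nowhere (owner helper595)
-/

set_option autoImplicit false

universe u v

open Metric Set Filter Topology
open Pool.Agent.TH60.FP Pool.Agent.Y34.HB Pool.Agent.Y34.EL

namespace Pool.Agent.R595.RR

/-- `o` is a bottleneck: segments with ends in nearly opposite directions pass near `o` -/
def BP {X : Type u} [MetricSpace X] (o : X) (R T ε : ℝ) : Prop :=
  ∀ p q a b : X, On o p T a → On o q T b → 2 * T - ε ≤ dist a b →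
    ∃ m, dist p m + dist m q = dist p q ∧ dist o m ≤ R

/-- the segments `[s⁻¹ o, o]`, `[o, s' o]` fit together -/
def Cp {X : Type u} [MetricSpace X] {G : Type v} [Group G] [MulAction G X] (o : X) (T η : ℝ)
    (s s' : G) : Prop :=
  ∀ a b : X, On o (s⁻¹ • o) T a → On o (s' • o) T b → 2 * T - η ≤ dist a b

/-- products of consecutive elements of a sequence -/
def Pz {G : Type v} [Group G] (s : ℤ → G) : ℤ → ℕ → G
  | _, 0 => 1
  | i, n + 1 => s i * Pz s (i + 1) n

section

variable {G : Type v} [Group G]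

lemma Pz_succ (s : ℤ → G) (i : ℤ) (n : ℕ) : Pz s i (n + 1) = s i * Pz s (i + 1) n := rfl

lemma Pz_add (s : ℤ → G) (m : ℕ) : ∀ (n : ℕ) (i : ℤ),
    Pz s i (n + m) = Pz s i n * Pz s (i + n) m := by
  intro n
  induction n with
  | zero => intro i; simp [Pz]
  | succ n ih =>
    intro i
    rw [show n + 1 + m = (n + m) + 1 by ring, Pz_succ, ih, Pz_succ, mul_assoc]
    congr 3
    push_cast
    ring

lemma Pz_last (s : ℤ → G) (n : ℕ) (i : ℤ) : Pz s i (n + 1) = Pz s i n * s (i + n) := by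
  rw [Pz_add]
  simp [Pz]

lemma Pz_inv (s : ℤ → G) : ∀ (n : ℕ) (i : ℤ),
    Pz (fun j => (s (-1 - j))⁻¹) i n = (Pz s (-i - n) n)⁻¹ := by
  intro n
  induction n with
  | zero => intro i; simp [Pz]
  | succ n ih =>
    intro i
    rw [Pz_succ, ih, Pz_last, mul_inv_rev]
    congr 2
    · congr 1
      push_cast
      ring
    · congr 1
      push_cast
      ring

lemma Pz_per (s : ℤ → G) (k : ℤ) (hs : ∀ i, s (i + k) = s i) : ∀ (n : ℕ) (i : ℤ),
    Pz s (i + k) n = Pz s i n := by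
  intro n
  induction n with
  | zero => intro i; rfl
  | succ n ih =>
    intro i
    rw [Pz_succ, Pz_succ, hs, show i + k + 1 = (i + 1) + k by ring, ih]

lemma Pz_pow (s : ℤ → G) (N : ℕ) (hs : ∀ i, s (i + N) = s i) (m : ℕ) (i : ℤ) :
    Pz s i (m * N) = (Pz s i N) ^ m := by
  induction m with
  | zero => simp [Pz]
  | succ m ih =>
    rw [show (m + 1) * N = m * N + N by ring, Pz_add, ih, pow_succ]
    congr 1
    have h : ∀ i, s (i + ((m * N : ℕ) : ℤ)) = s i := by
      intro i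
      clear ih
      induction m with
      | zero => simp
      | succ m ih => rw [show i + (((m + 1) * N : ℕ) : ℤ) = (i + ((m * N : ℕ) : ℤ)) + N by
          push_cast; ring, hs, ih]
    exact Pz_per s _ h N i

end

section

variable {X : Type u} [MetricSpace X]

lemma close' [ProperSpace X] (hX : CN X) {o p q a b : X} {T K δ : ℝ} (hT : 0 < T) (hδ : 0 < δ)
    (ha : On o p T a) (hb : On o q T b) (hpq : dist p q ≤ K)
    (h1 : T * K ≤ δ * dist o p) (h2 : T * K ≤ δ * dist o q) (h1' : 0 < dist o p)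
    (h2' : 0 < dist o q) : dist a b ≤ δ := by
  have h := (t_cmp X hX).1 o p q T a b ha hb
  have hK : 0 ≤ K := dist_nonneg.trans hpq
  by_contra hcon
  push Not at hcon
  have hP : 0 < dist o p * dist o q := mul_pos h1' h2'
  have e1 : (T * K) * (T * K) ≤ (δ * dist o p) * (δ * dist o q) :=
    mul_le_mul h1 h2 (by positivity) (by positivity)
  have e2 : δ ^ 2 < dist a b ^ 2 := pow_lt_pow_left₀ hcon hδ.le (by norm_num)
  have e3 : δ ^ 2 * (dist o p * dist o q) < dist a b ^ 2 * (dist o p * dist o q) :=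
    mul_lt_mul_of_pos_right e2 hP
  have e4 : dist p q ^ 2 ≤ K ^ 2 := pow_le_pow_left₀ dist_nonneg hpq 2
  have e5 : dist p q ^ 2 - (dist o p - dist o q) ^ 2 ≤ K ^ 2 := by
    have := sq_nonneg (dist o p - dist o q)
    linarith
  have e6 : T ^ 2 * (dist p q ^ 2 - (dist o p - dist o q) ^ 2) ≤ T ^ 2 * K ^ 2 :=
    mul_le_mul_of_nonneg_left e5 (by positivity)
  have e7 : (δ * dist o p) * (δ * dist o q) = δ ^ 2 * (dist o p * dist o q) := by ring
  have e8 : (T * K) * (T * K) = T ^ 2 * K ^ 2 := by ring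
  linarith

variable {G : Type v} [Group G] [MulAction G X]

lemma Cp_symm {o : X} {T η : ℝ} {s s' : G} (h : Cp o T η s s') : Cp o T η s'⁻¹ s⁻¹ := by
  intro a b ha hb
  rw [inv_inv] at ha
  rw [dist_comm]
  exact h b a hb ha

/-- chains -/
lemma dirW [ProperSpace X] [IsIsometricSMul G X] (hX : CN X) {o : X} {R T ε L : ℝ} (hT : 0 < T)
    (hR : 0 ≤ R) (hε : 0 < ε) (hBP : BP o R T ε) (hL1 : T * R ≤ ε / 8 * (L - R))
    (hL2 : T + 2 * R + 1 ≤ L) (s : ℤ → G) (hs : ∀ i, L ≤ dist o (s i • o))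
    (hc : ∀ i, Cp o T (ε / 2) (s i) (s (i + 1))) : ∀ (n : ℕ) (i : ℤ),
    T ≤ dist o (Pz s i (n + 1) • o) ∧
      (∀ y w, On o (Pz s i (n + 1) • o) T y → On o (s i • o) T w → dist y w ≤ ε / 8) ∧
      (n + 1) * (L - 2 * R) ≤ dist o (Pz s i (n + 1) • o) := by
  have hinv : ∀ g : G, dist o (g⁻¹ • o) = dist o (g • o) := by
    intro g
    rw [← dist_smul g o (g⁻¹ • o), smul_inv_smul, dist_comm]
  intro n
  induction n with
  | zero =>
    intro i
    have e : Pz s i (0 + 1) = s i := by simp [Pz]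
    rw [e]
    refine ⟨by linarith [hs i], fun y w hy hw => ?_, ?_⟩
    · rw [(t_stew X hX).2.1 _ _ _ _ _ hy hw, dist_self]
      positivity
    · have := hs i
      push_cast
      linarith
  | succ n ih =>
    intro i
    obtain ⟨i1, i2, i3⟩ := ih (i + 1)
    have hsi := hs i
    have hsi1 := hs (i + 1)
    set g := Pz s (i + 1) (n + 1) with hg
    have e0 : Pz s i (n + 1 + 1) = s i * g := Pz_succ s i (n + 1)
    rw [e0]
    obtain ⟨a, ha⟩ := (t_stew X hX).1 o ((s i)⁻¹ • o) T hT.le (by rw [hinv]; linarith)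
    obtain ⟨b, hb⟩ := (t_stew X hX).1 o (g • o) T hT.le i1
    obtain ⟨w1, hw1⟩ := (t_stew X hX).1 o (s (i + 1) • o) T hT.le (by linarith)
    have h1 := hc i a w1 ha hw1
    have h2 := i2 b w1 hb hw1
    have h3 := dist_triangle a b w1
    obtain ⟨m, hm1, hm2⟩ := hBP _ _ a b ha hb (by linarith)
    have e1 : dist o (s i • m) + dist (s i • m) ((s i * g) • o) = dist o ((s i * g) • o) := by
      rw [mul_smul, dist_smul, ← dist_smul (s i)⁻¹ o (s i • m), inv_smul_smul,
        ← dist_smul (s i)⁻¹ o (s i • g • o), inv_smul_smul]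
      exact hm1
    have e2 : dist (s i • m) (s i • o) ≤ R := by
      rw [dist_smul, dist_comm]
      exact hm2
    have e3 : dist o (s i • o) - R ≤ dist o (s i • m) := by
      have := dist_triangle o (s i • m) (s i • o)
      linarith
    have e4 : dist o (s i • m) ≤ dist o ((s i * g) • o) := by
      have : 0 ≤ dist (s i • m) ((s i * g) • o) := dist_nonneg
      linarith
    refine ⟨by linarith, fun y w hy hw => ?_, ?_⟩
    · obtain ⟨z, hz⟩ := (t_stew X hX).1 o (s i • m) T hT.le (by linarith)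
      have hz' := Pool.Agent.Y975.EL.Close.on_ext e1 hz
      have hyz : y = z := (t_stew X hX).2.1 o _ T y z hy hz'
      rw [hyz]
      refine close' hX hT (by positivity) hz hw e2 ?_ ?_ (by linarith) (by linarith)
      · refine hL1.trans (mul_le_mul_of_nonneg_left (by linarith) (by positivity))
      · refine hL1.trans (mul_le_mul_of_nonneg_left (by linarith) (by positivity))
    · have h4 : dist o ((s i * g) • o) = dist ((s i)⁻¹ • o) (g • o) := by
        rw [← dist_smul (s i) ((s i)⁻¹ • o) (g • o), smul_inv_smul, mul_smul]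
      rw [h4, ← hm1]
      have h5 := dist_triangle ((s i)⁻¹ • o) m o
      have h6 := dist_triangle o m (g • o)
      rw [dist_comm ((s i)⁻¹ • o) o, hinv, dist_comm m o] at h5
      push_cast
      nlinarith

/-- periodic chains give rank one isometries -/
theorem rank_of_chain (hG : Geo X G) {o : X} {R T ε L : ℝ} (hT : 0 < T)
    (hR : 0 ≤ R) (hε : 0 < ε) (hBP : BP o R T ε) (hL1 : T * R ≤ ε / 8 * (L - R))
    (hL2 : T + 2 * R + 1 ≤ L) (s : ℤ → G) (hs : ∀ i, L ≤ dist o (s i • o))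
    (hc : ∀ i, Cp o T (ε / 2) (s i) (s (i + 1))) (N : ℕ) (hN : 0 < N)
    (hper : ∀ i, s (i + N) = s i) : RankOne X (Pz s 0 N) := by
  have := hG.proper
  have := hG.isom
  have hX := hG.cn
  have hinv : ∀ g : G, dist o (g⁻¹ • o) = dist o (g • o) := by
    intro g
    rw [← dist_smul g o (g⁻¹ • o), smul_inv_smul, dist_comm]
  set g := Pz s 0 N with hg
  have hV := dirW hX hT hR hε hBP hL1 hL2 s hs hc
  set s' : ℤ → G := fun j => (s (-1 - j))⁻¹ with hs'
  have hU := dirW hX hT hR hε hBP hL1 hL2 s' (fun i => by rw [hs']; simp only; rw [hinv]; exact hs _)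
    (fun i => by
      rw [hs']
      simp only
      have := Cp_symm (hc (-1 - (i + 1)))
      rw [show -1 - (i + 1) + 1 = -1 - i by ring] at this
      exact this)
  have hgm : ∀ m : ℕ, Pz s 0 (m * N) = g ^ m := fun m => Pz_pow s N hper m 0
  have hpm : ∀ (m : ℕ) (i : ℤ), s (i + ((m * N : ℕ) : ℤ)) = s i := by
    intro m
    induction m with
    | zero => intro i; simp
    | succ m ih =>
      intro i
      rw [show i + (((m + 1) * N : ℕ) : ℤ) = (i + ((m * N : ℕ) : ℤ)) + N by push_cast; ring,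
        hper, ih]
  have hgm' : ∀ m : ℕ, Pz s' 0 (m * N) = g⁻¹ ^ m := by
    intro m
    rw [Pz_inv, inv_pow, ← hgm]
    congr 1
    have := Pz_per s _ (hpm m) (m * N) (-0 - ((m * N : ℕ) : ℤ))
    rw [← this]
    congr 1
    ring
  -- lengths and directions of the powers
  have hkey : ∀ n : ℕ, ∃ k : ℕ, (n + 1) * N = k + 1 := fun n =>
    ⟨(n + 1) * N - 1, by have : 0 < (n + 1) * N := by positivity
                         omega⟩
  set κ : ℝ := L - 2 * R with hκ
  have hκ0 : 0 < κ := by rw [hκ]; linarith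
  have hVn : ∀ n : ℕ, (∀ y w, On o (g ^ (n + 1) • o) T y → On o (s 0 • o) T w →
      dist y w ≤ ε / 8) ∧ κ * (n + 1) ≤ dist o (g ^ (n + 1) • o) := by
    intro n
    obtain ⟨k, hk⟩ := hkey n
    have h := hV k 0
    rw [← hk, hgm] at h
    refine ⟨h.2.1, le_trans ?_ h.2.2⟩
    have h1 : ((n : ℝ) + 1) ≤ (k : ℝ) + 1 := by
      have : n + 1 ≤ k + 1 := by rw [← hk]; exact Nat.le_mul_of_pos_right _ hN
      exact_mod_cast this
    rw [mul_comm]
    exact mul_le_mul_of_nonneg_right h1 hκ0.le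
  have hUn : ∀ n : ℕ, (∀ y w, On o (g⁻¹ ^ (n + 1) • o) T y → On o ((s (-1))⁻¹ • o) T w →
      dist y w ≤ ε / 8) ∧ κ * (n + 1) ≤ dist o (g⁻¹ ^ (n + 1) • o) := by
    intro n
    obtain ⟨k, hk⟩ := hkey n
    have h := hU k 0
    rw [← hk, hgm'] at h
    refine ⟨?_, le_trans ?_ h.2.2⟩
    · have h2 := h.2.1
      rw [hs'] at h2
      simp only [sub_zero] at h2
      exact h2
    · have h1 : ((n : ℝ) + 1) ≤ (k : ℝ) + 1 := by
        have : n + 1 ≤ k + 1 := by rw [← hk]; exact Nat.le_mul_of_pos_right _ hN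
        exact_mod_cast this
      rw [mul_comm]
      exact mul_le_mul_of_nonneg_right h1 hκ0.le
  have hgrow : ∀ m : ℕ, κ * m ≤ dist o (g ^ m • o) := by
    intro m
    cases m with
    | zero => simp
    | succ n =>
      have := (hVn n).2
      push_cast
      exact this
  obtain ⟨τ, c, hτ, hA⟩ := Pool.Agent.Y219.EL.t_axis X G hG g o κ hκ0 hgrow
  refine ⟨τ, c, hτ, hA, ?_⟩
  by_contra hne
  obtain ⟨H, hH1, hH2⟩ := Set.nonempty_iff_ne_empty.2 hne
  set K0 : ℝ := dist o (c 0) with hK0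
  have hK00 : 0 ≤ K0 := dist_nonneg
  set h : NNReal := ⟨K0 + R + 1, by linarith⟩ with hh
  have hhv : (h : ℝ) = K0 + R + 1 := rfl
  set K1 : ℝ := K0 + h with hK1
  have hK10 : 0 ≤ K1 := by rw [hK1, hhv]; linarith
  have hTK : 0 ≤ T * K1 := by positivity
  obtain ⟨n, hn⟩ := exists_nat_ge ((K1 + 8 * (T * K1) / ε + T + 1) / κ)
  have hn' : K1 + 8 * (T * K1) / ε + T + 1 ≤ κ * (n + 1) := by
    rw [div_le_iff₀ hκ0] at hn
    nlinarith
  have hdiv : T * K1 ≤ ε / 8 * (8 * (T * K1) / ε) := by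
    have : ε / 8 * (8 * (T * K1) / ε) = T * K1 := by field_simp
    rw [this]
  have hdiv0 : 0 ≤ 8 * (T * K1) / ε := by positivity
  -- distances in the half-plane
  have hdd : ∀ x y : ℝ, dist (H (x, h)) (H (y, h)) = |x - y| := by
    intro x y
    have := hH1 (x, h) (y, h)
    simp only [sub_self, ne_eq, OfNat.ofNat_ne_zero, not_false_eq_true, zero_pow, add_zero] at this
    rw [← abs_of_nonneg (dist_nonneg : 0 ≤ dist (H (x, h)) (H (y, h)))]
    exact (sq_eq_sq_iff_abs_eq_abs _ _).1 this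
  have hd0 : ∀ x : ℝ, dist (H (x, h)) (c x) = h := by
    intro x
    have := hH1 (x, h) (x, 0)
    rw [hH2] at this
    simp only [sub_self, ne_eq, OfNat.ofNat_ne_zero, not_false_eq_true, zero_pow, zero_add,
      NNReal.coe_zero, sub_zero] at this
    exact (pow_left_inj₀ dist_nonneg h.2 two_ne_zero).1 this
  have hd1 : ∀ x : ℝ, (h : ℝ) ≤ dist (H (x, h)) (c 0) := by
    intro x
    have := hH1 (x, h) (0, 0)
    rw [hH2] at this
    simp only [NNReal.coe_zero, sub_zero] at this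
    refine le_of_sq_le_sq ?_ dist_nonneg
    rw [this]
    have := sq_nonneg x
    linarith
  -- the two points
  have hfar : ∀ (γ : G) (x : ℝ), γ • c 0 = c x → dist (H (x, h)) (γ • o) ≤ K1 := by
    intro γ x hx
    have h5 : dist (c x) (γ • o) = K0 := by
      rw [← hx, dist_smul, dist_comm]
    have h6 := dist_triangle (H (x, h)) (c x) (γ • o)
    rw [hd0, h5] at h6
    rw [hK1]
    linarith
  have main : ∀ (γ : G) (x : ℝ) (r : X), γ • c 0 = c x → κ * (n + 1) ≤ dist o (γ • o) →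
      (∀ y w, On o (γ • o) T y → On o r T w → dist y w ≤ ε / 8) →
      T ≤ dist o (H (x, h)) ∧ ∀ y w, On o (H (x, h)) T y → On o r T w → dist y w ≤ ε / 4 := by
    intro γ x r hx hgr hdir
    have h5 := hfar γ x hx
    have h6 := dist_triangle o (H (x, h)) (γ • o)
    have h7 : 8 * (T * K1) / ε + T + 1 ≤ dist o (H (x, h)) := by linarith
    refine ⟨by linarith, fun y w hy hw => ?_⟩
    obtain ⟨v, hv⟩ := (t_stew X hX).1 o (γ • o) T hT.le (by linarith)
    have h8 : dist y v ≤ ε / 8 := by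
      refine close' hX hT (by positivity) hy hv h5 ?_ ?_ (by linarith) (by linarith)
      · exact hdiv.trans (mul_le_mul_of_nonneg_left (by linarith) (by positivity))
      · exact hdiv.trans (mul_le_mul_of_nonneg_left (by linarith) (by positivity))
    have h9 := hdir v w hv hw
    have h10 := dist_triangle y v w
    linarith
  obtain ⟨v1, v2⟩ := main (g ^ (n + 1)) (((n + 1 : ℕ) : ℝ) * τ) (s 0 • o)
    (Pool.Agent.Y975.EL.Close.axis_pow hA (n + 1)) (hVn n).2 (hVn n).1
  obtain ⟨u1, u2⟩ := main (g⁻¹ ^ (n + 1)) (-(((n + 1 : ℕ) : ℝ) * τ)) ((s (-1))⁻¹ • o)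
    (Pool.Agent.Y975.EL.Close.axis_inv hA (n + 1)) (hUn n).2 (hUn n).1
  set x : ℝ := ((n + 1 : ℕ) : ℝ) * τ with hx
  have hx0 : 0 ≤ x := by rw [hx]; positivity
  obtain ⟨a, ha⟩ := (t_stew X hX).1 o (H (-x, h)) T hT.le u1
  obtain ⟨b, hb⟩ := (t_stew X hX).1 o (H (x, h)) T hT.le v1
  obtain ⟨a', ha'⟩ := (t_stew X hX).1 o ((s (-1))⁻¹ • o) T hT.le
    (by rw [hinv]; linarith [hs (-1)])
  obtain ⟨b', hb'⟩ := (t_stew X hX).1 o (s 0 • o) T hT.le (by linarith [hs 0])
  have hcp := hc (-1)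
  rw [show (-1 : ℤ) + 1 = 0 by norm_num] at hcp
  have w1 := hcp a' b' ha' hb'
  have w2 := u2 a a' ha ha'
  have w3 := v2 b b' hb hb'
  have w4 := dist_triangle4 a' a b b'
  rw [dist_comm a' a] at w4
  obtain ⟨m, hm1, hm2⟩ := hBP _ _ a b ha hb (by linarith)
  set t : ℝ := dist (H (-x, h)) m with ht
  have hD : dist (H (-x, h)) (H (x, h)) = 2 * x := by
    rw [hdd, show -x - x = -(2 * x) by ring, abs_neg, abs_of_nonneg (by linarith)]
  have ht0 : 0 ≤ t := dist_nonneg
  have htD : t ≤ 2 * x := by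
    have : 0 ≤ dist m (H (x, h)) := dist_nonneg
    linarith
  have hmm : m = H (-x + t, h) := by
    refine (t_stew X hX).2.1 (H (-x, h)) (H (x, h)) t m _ ⟨rfl, by linarith⟩ ⟨?_, ?_⟩
    · rw [hdd, show -x - (-x + t) = -t by ring, abs_neg, abs_of_nonneg ht0]
    · rw [hdd, hD, show -x + t - x = -(2 * x - t) by ring, abs_neg, abs_of_nonneg (by linarith)]
  have h11 := hd1 (-x + t)
  rw [← hmm] at h11
  have h12 := dist_triangle m o (c 0)
  rw [dist_comm m o] at h12
  linarith

end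

end Pool.Agent.R595.RR
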