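import Pool.Agent.R595.RR.Chain

/-!
# Duality of ends is transitive along lines (owner helper595)
-/

set_option autoImplicit false

universe u v

open Metric Set Filter Topology
open Pool.Agent.TH60.FP Pool.Agent.Y34.HB Pool.Agent.Y34.EL

namespace Pool.Agent.R595.RR

/-- a unit speed ray (only the values on `[0, ∞)` matter) -/
def IsRay {X : Type u} [MetricSpace X] (c : ℝ → X) : Prop :=
  ∀ s t : ℝ, 0 ≤ s → 0 ≤ t → dist (c s) (c t) = |s - t|

/-- the ends of the rays `c`, `c'` are dual -/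
def Du {X : Type u} [MetricSpace X] (G : Type v) [Group G] [MulAction G X] (c c' : ℝ → X) : Prop :=
  ∀ t : ℝ, 0 < t → ∃ g : G, g • c 0 ∈ Cone (c 0) (c t) ∧ g⁻¹ • c' 0 ∈ Cone (c' 0) (c' t)

section

variable {X : Type u} [MetricSpace X] {G : Type v} [Group G] [MulAction G X]

lemma Du_symm {c c' : ℝ → X} (h : Du G c c') : Du G c' c := by
  intro t ht
  obtain ⟨g, h1, h2⟩ := h t ht
  exact ⟨g⁻¹, h2, by rwa [inv_inv]⟩

lemma isRay_pos {σ : ℝ → X} (hσ : Isometry σ) : IsRay σ := fun s t _ _ => by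
  rw [hσ.dist_eq, Real.dist_eq]

lemma isRay_neg {σ : ℝ → X} (hσ : Isometry σ) : IsRay (fun t => σ (-t)) := fun s t _ _ => by
  simp only
  rw [hσ.dist_eq, Real.dist_eq, show -s - -t = -(s - t) by ring, abs_neg]

/-- nearby segments -/
lemma fellow [ProperSpace X] (hX : CN X) {a b a' b' y : X}
    (hy : dist a y + dist y b = dist a b) :
    ∃ y', dist a' y' + dist y' b' = dist a' b' ∧ dist y y' ≤ dist a a' + dist b b' := by
  rcases (dist_nonneg : 0 ≤ dist a b).lt_or_eq with h | h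
  · set l : ℝ := dist a y / dist a b with hl
    have hl0 : 0 ≤ l := by positivity
    have hl1 : l ≤ 1 := by
      rw [hl, div_le_one h]
      have : 0 ≤ dist y b := dist_nonneg
      linarith
    have e : l * dist a b = dist a y := by rw [hl, div_mul_cancel₀ _ h.ne']
    obtain ⟨y', hy'⟩ := (t_stew X hX).1 a' b' (l * dist a' b') (by positivity)
      (by nlinarith [(dist_nonneg : 0 ≤ dist a' b')])
    refine ⟨y', by rw [hy'.1, hy'.2]; ring, ?_⟩
    have h1 := (t_cmp X hX).2 a b a' b' l y y' ⟨e.symm, by rw [e]; linarith⟩ hy' hl0 hl1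
    have h2 : (1 - l) * dist a a' ≤ 1 * dist a a' :=
      mul_le_mul_of_nonneg_right (by linarith) dist_nonneg
    have h3 : l * dist b b' ≤ 1 * dist b b' := mul_le_mul_of_nonneg_right hl1 dist_nonneg
    linarith
  · have h1 : dist a y = 0 := by
      have e1 : 0 ≤ dist a y := dist_nonneg
      have e2 : 0 ≤ dist y b := dist_nonneg
      linarith
    refine ⟨a', by rw [dist_self, zero_add], ?_⟩
    rw [← dist_eq_zero.1 h1]
    have : 0 ≤ dist b b' := dist_nonneg
    linarith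

/-- a point of a segment near the ray, far away -/
lemma cone_of [ProperSpace X] (hX : CN X) {c : ℝ → X} (hc : IsRay c) {t s δ : ℝ} (ht : 0 < t)
    (hts : 2 * t ≤ s) (hδ : 0 < δ) (hδ1 : δ ≤ 1 / 2) (hδt : 8 * (t * δ) ≤ 1) {q B : X}
    (hB : dist (c 0) B + dist B q = dist (c 0) q) (hBs : dist B (c s) ≤ δ * s) :
    q ∈ Cone (c 0) (c t) := by
  have hs : 0 < s := by linarith
  have e1 : dist (c 0) (c s) = s := by
    rw [hc 0 s le_rfl hs.le, zero_sub, abs_neg, abs_of_pos hs]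
  have e2 : dist (c 0) (c t) = t := by
    rw [hc 0 t le_rfl ht.le, zero_sub, abs_neg, abs_of_pos ht]
  have e3 : s / 2 ≤ dist (c 0) B := by
    have h1 := dist_triangle (c 0) B (c s)
    rw [e1] at h1
    nlinarith
  obtain ⟨z, hz⟩ := (t_stew X hX).1 (c 0) B t ht.le (by linarith)
  have hz' := Pool.Agent.Y975.EL.Close.on_ext hB hz
  refine ⟨z, by rw [e2]; exact hz', ?_⟩
  have h4 : On (c 0) (c s) t (c t) := by
    refine ⟨e2, ?_⟩
    rw [e1, hc t s ht.le hs.le, abs_sub_comm, abs_of_nonneg (by linarith)]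
  refine close' hX ht (by norm_num) hz h4 hBs ?_ ?_ (by linarith) (by linarith)
  · nlinarith
  · rw [e1]
    nlinarith

/-- transfer of a direction from the base point `o` to the origin of the ray -/
lemma transfer [ProperSpace X] [IsIsometricSMul G X] (hX : CN X) {c : ℝ → X} (hc : IsRay c)
    {t s δ r : ℝ} (ht : 0 < t) (hts : 2 * t ≤ s) (hδ : 0 < δ) (hδ1 : δ ≤ 1 / 2)
    (hδt : 8 * (t * δ) ≤ 1) {o α β : X} {h g : G}
    (hα : dist o α + dist α (h • o) = dist o (h • o)) (hαs : dist o α = s)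
    (hβ : dist o β + dist β (g • o) = dist o (g • o)) (hαβ : dist α β ≤ r)
    (hh : h • c 0 ∈ Cone (c 0) (c s)) (hbig : 7 * dist o (c 0) + r + 1 / 4 ≤ δ * s) :
    g • c 0 ∈ Cone (c 0) (c t) := by
  have hs : 0 < s := by linarith
  set x := c 0 with hx
  have e1 : dist x (c s) = s := by
    rw [hx, hc 0 s le_rfl hs.le, zero_sub, abs_neg, abs_of_pos hs]
  obtain ⟨A, hA1, hA2⟩ := fellow hX (a' := x) (b' := h • x) hα
  obtain ⟨B, hB1, hB2⟩ := fellow hX (a' := x) (b' := g • x) hβ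
  rw [dist_smul] at hA2 hB2
  obtain ⟨z, hz, hz'⟩ := hh
  rw [e1] at hz
  -- position of `A`
  have a1 := dist_triangle4 x o α A
  have a2 := dist_triangle4 o x A α
  rw [dist_comm x o] at a1
  rw [dist_comm A α] at a2
  have hAz : dist A z ≤ 3 * dist o x := by
    rcases le_total (dist x A) s with hle | hle
    · rw [Pool.Agent.Y350.EL.on_dist t_stew hX (o := x) (q := h • x) dist_nonneg hle
        ⟨rfl, by linarith⟩ hz]
      linarith
    · rw [dist_comm, Pool.Agent.Y350.EL.on_dist t_stew hX (o := x) (q := h • x) hs.le hle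
        hz ⟨rfl, by linarith⟩]
      linarith
  refine cone_of hX hc ht hts hδ hδ1 hδt hB1 ?_
  have b1 := dist_triangle4 B β α A
  have b2 := dist_triangle4 B A z (c s)
  rw [dist_comm B β, dist_comm β α] at b1
  linarith

/-- **transitivity of duality along a line** -/
theorem Du_comp [ProperSpace X] [IsIsometricSMul G X] (hX : CN X) {c c' σ : ℝ → X}
    (hc : IsRay c) (hc' : IsRay c') (hσ : Isometry σ) (h1 : Du G c (fun t => σ (-t)))
    (h2 : Du G σ c') : Du G c c' := by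
  intro t ht
  set o : X := σ 0 with ho
  obtain ⟨D, hD⟩ : ∃ D : ℝ, D = dist o (c 0) + dist o (c' 0) := ⟨_, rfl⟩
  have hD1 : dist o (c 0) ≤ D := by
    have : 0 ≤ dist o (c' 0) := dist_nonneg
    linarith
  have hD2 : dist o (c' 0) ≤ D := by
    have : 0 ≤ dist o (c 0) := dist_nonneg
    linarith
  have hD0 : 0 ≤ D := dist_nonneg.trans hD1
  obtain ⟨δ, hδ⟩ : ∃ δ : ℝ, δ = 1 / (8 * t + 2) := ⟨_, rfl⟩
  have hδ0 : 0 < δ := by rw [hδ]; positivity
  have hδ1 : δ ≤ 1 / 2 := by
    rw [hδ]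
    exact one_div_le_one_div_of_le (by norm_num) (by linarith)
  have hδt : 8 * (t * δ) ≤ 1 := by
    rw [hδ, mul_one_div, ← mul_div_assoc, div_le_one (by positivity)]
    linarith
  obtain ⟨r, hr⟩ : ∃ r : ℝ, r = (7 * D + 4) * (8 * t + 2) + 2 := ⟨_, rfl⟩
  have hr2 : 2 ≤ r := by
    have : 0 ≤ (7 * D + 4) * (8 * t + 2) := by positivity
    linarith
  obtain ⟨s, hs⟩ : ∃ s : ℝ, s = r ^ 2 := ⟨_, rfl⟩
  have hδr : 7 * D + 4 ≤ δ * r := by
    have h3 : δ * ((7 * D + 4) * (8 * t + 2)) = 7 * D + 4 := by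
      rw [hδ]
      field_simp
    calc 7 * D + 4 = δ * ((7 * D + 4) * (8 * t + 2)) := h3.symm
      _ ≤ δ * r := mul_le_mul_of_nonneg_left (by rw [hr]; linarith) hδ0.le
  have hs2 : 2 ≤ s := by rw [hs]; nlinarith
  have hst : 2 * t ≤ s := by
    have h3 : 1 * (8 * t + 2) ≤ (7 * D + 4) * (8 * t + 2) :=
      mul_le_mul_of_nonneg_right (by linarith) (by linarith)
    have h4 : r * 1 ≤ r ^ 2 := by
      rw [pow_two]
      exact mul_le_mul_of_nonneg_left (by linarith) (by linarith)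
    rw [hs]
    linarith
  have hs0 : 0 < s := by linarith
  have hbig : 7 * D + 2 * r + 1 / 4 ≤ δ * s := by
    have h3 : (7 * D + 4) * r ≤ δ * s := by
      rw [hs, pow_two, ← mul_assoc]
      exact mul_le_mul_of_nonneg_right hδr (by linarith)
    have h4 : 7 * D * 1 ≤ 7 * D * r := mul_le_mul_of_nonneg_left (by linarith) (by positivity)
    linarith
  obtain ⟨h, hh1, hh2⟩ := h1 s hs0
  obtain ⟨k, hk1, hk2⟩ := h2 s hs0
  simp only [neg_zero] at hh2
  rw [← ho] at hh2 hk1
  have hσd : ∀ a b : ℝ, dist (σ a) (σ b) = |a - b| := fun a b => by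
    rw [hσ.dist_eq, Real.dist_eq]
  have e1 : dist o (σ (-s)) = s := by
    rw [ho, hσd, zero_sub, neg_neg, abs_of_pos hs0]
  have e2 : dist o (σ s) = s := by
    rw [ho, hσd, zero_sub, abs_neg, abs_of_pos hs0]
  obtain ⟨a, ha, ha'⟩ := hh2
  obtain ⟨b, hb, hb'⟩ := hk1
  rw [e1] at ha
  rw [e2] at hb
  set p : X := h⁻¹ • o with hp
  set q : X := k • o with hq
  have hab : 2 * s - 1 / 2 ≤ dist a b := by
    have h3 := dist_triangle4 (σ (-s)) a b (σ s)
    rw [hσd, show -s - s = -(2 * s) by ring, abs_neg, abs_of_pos (by linarith),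
      dist_comm (σ (-s)) a] at h3
    linarith
  have hop : s ≤ dist o p := by
    have h3 := ha.2
    have h4 : 0 ≤ dist a p := dist_nonneg
    linarith
  have hoq : s ≤ dist o q := by
    have h3 := hb.2
    have h4 : 0 ≤ dist b q := dist_nonneg
    linarith
  have hpq : s ≤ dist p q := by
    have h3 := (t_cmp X hX).1 o p q s a b ha hb
    have h4 : s * s ≤ dist o p * dist o q := mul_le_mul hop hoq hs0.le (by linarith)
    have h5 : s ^ 2 ≤ dist a b ^ 2 := pow_le_pow_left₀ hs0.le (by linarith) 2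
    have h6 : s ^ 2 * (s * s) ≤ dist a b ^ 2 * (dist o p * dist o q) :=
      mul_le_mul h5 h4 (by positivity) (by positivity)
    have h7 : s ^ 2 * (dist p q ^ 2 - (dist o p - dist o q) ^ 2) ≤ s ^ 2 * dist p q ^ 2 :=
      mul_le_mul_of_nonneg_left (by linarith [sq_nonneg (dist o p - dist o q)]) (by positivity)
    have h8 : s ^ 2 * (s * s) ≤ s ^ 2 * dist p q ^ 2 := (h6.trans h3).trans h7
    have h9 : s * s ≤ dist p q ^ 2 := le_of_mul_le_mul_left h8 (by positivity)
    exact le_of_sq_le_sq (by linarith) dist_nonneg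
  have hpo : dist p o = dist o p := dist_comm _ _
  have hqo : dist q o = dist o q := dist_comm _ _
  have hqp : dist q p = dist p q := dist_comm _ _
  obtain ⟨a1, ha1⟩ := (t_stew X hX).1 p o s hs0.le (by rw [hpo]; exact hop)
  obtain ⟨b1, hb1⟩ := (t_stew X hX).1 p q s hs0.le hpq
  obtain ⟨a2, ha2⟩ := (t_stew X hX).1 q o s hs0.le (by rw [hqo]; exact hoq)
  obtain ⟨b2, hb2⟩ := (t_stew X hX).1 q p s hs0.le (by rw [hqp]; exact hpq)
  have hsq : (2 * s - 1 / 2) ^ 2 ≤ dist a b ^ 2 := pow_le_pow_left₀ (by linarith) hab 2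
  have hsq2 : 4 * s ^ 2 - (2 * s - 1 / 2) ^ 2 ≤ (2 * r) ^ 2 := by
    have e3 : 4 * s ^ 2 - (2 * s - 1 / 2) ^ 2 = 2 * s - 1 / 4 := by ring
    have e4 : (2 * r) ^ 2 = 4 * s := by rw [hs]; ring
    rw [e3, e4]
    linarith
  have h3 : dist a1 b1 ≤ 2 * r := by
    have h4 := t_tri X hX o p q s a b a1 b1 ha hb ha1 hb1
    refine le_of_sq_le_sq ?_ (by linarith)
    linarith
  have h3' : dist a2 b2 ≤ 2 * r := by
    have h4 := t_tri X hX o q p s b a a2 b2 hb ha ha2 hb2
    rw [dist_comm b a] at h4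
    refine le_of_sq_le_sq ?_ (by linarith)
    linarith
  have ehp : h • p = o := by rw [hp, smul_inv_smul]
  have ekq : k⁻¹ • q = o := by rw [hq, inv_smul_smul]
  refine ⟨h * k, ?_, ?_⟩
  · refine transfer hX hc ht hst hδ0 hδ1 hδt (o := o) (α := h • a1) (β := h • b1) (h := h)
      (r := 2 * r) ?_ ?_ ?_ ?_ hh1 (by linarith)
    · rw [← ehp]
      rw [show dist (h • p) (h • a1) = dist p a1 from dist_smul _ _ _, ehp,
        show dist (h • a1) (h • o) = dist a1 o from dist_smul _ _ _,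
        show dist o (h • o) = dist p o by rw [← ehp, dist_smul, ehp], ha1.1, ha1.2]
      ring
    · rw [show dist o (h • a1) = dist p a1 by rw [← ehp, dist_smul], ha1.1]
    · rw [show dist o (h • b1) = dist p b1 by rw [← ehp, dist_smul], mul_smul,
        show dist (h • b1) (h • k • o) = dist b1 q from dist_smul _ _ _,
        show dist o (h • k • o) = dist p q by rw [← ehp, dist_smul, ehp], hb1.1, hb1.2]
      ring
    · rw [dist_smul]
      exact h3
  · refine transfer hX hc' ht hst hδ0 hδ1 hδt (o := o) (α := k⁻¹ • a2) (β := k⁻¹ • b2) (h := k⁻¹)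
      (r := 2 * r) ?_ ?_ ?_ ?_ hk2 (by linarith)
    · rw [show dist o (k⁻¹ • a2) = dist q a2 by rw [← ekq, dist_smul],
        show dist (k⁻¹ • a2) (k⁻¹ • o) = dist a2 o from dist_smul _ _ _,
        show dist o (k⁻¹ • o) = dist q o by rw [← ekq, dist_smul, ekq], ha2.1, ha2.2]
      ring
    · rw [show dist o (k⁻¹ • a2) = dist q a2 by rw [← ekq, dist_smul], ha2.1]
    · rw [show dist o (k⁻¹ • b2) = dist q b2 by rw [← ekq, dist_smul], mul_inv_rev, mul_smul,
        show dist (k⁻¹ • b2) (k⁻¹ • h⁻¹ • o) = dist b2 p from dist_smul _ _ _,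
        show dist o (k⁻¹ • h⁻¹ • o) = dist q p by rw [← ekq, dist_smul, ekq], hb2.1, hb2.2]
      ring
    · rw [dist_smul]
      exact h3'

/-- the ends of a line without half-planes are not dual unless there is a rank one isometry -/
theorem Du_close (hG : Geo X G) {c : ℝ → X} (hc : Isometry c) (hHP : HP c = ∅)
    (h : Du G c (fun t => c (-t))) : ∃ g : G, RankOne X g := by
  have := hG.proper
  have := hG.isom
  have hX := hG.cn
  obtain ⟨T, L, hT, hTL, hclose⟩ := t_closing X G hG c hc hHP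
  have hL : 0 < L := hT.trans_le hTL
  obtain ⟨g, ⟨z, hz, hz'⟩, ⟨w, hw, hw'⟩⟩ := h L hL
  simp only [neg_zero] at hw hw'
  have hcd : ∀ a b : ℝ, dist (c a) (c b) = |a - b| := fun a b => by
    rw [hc.dist_eq, Real.dist_eq]
  have e1 : dist (c 0) (c L) = L := by rw [hcd, zero_sub, abs_neg, abs_of_pos hL]
  have e2 : dist (c 0) (c (-L)) = L := by rw [hcd, zero_sub, neg_neg, abs_of_pos hL]
  rw [e1] at hz
  rw [e2] at hw
  refine ⟨g, hclose g ?_ ?_ ?_⟩
  · have h3 := hz.2
    have h4 : 0 ≤ dist z (g • c 0) := dist_nonneg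
    linarith
  · intro y hy
    have h3 := scale hX hc hT.le hTL hL (Or.inl rfl : (1 : ℝ) = 1 ∨ (1 : ℝ) = -1) hz
      (by rw [one_mul]; exact hz') hy
    rw [one_mul] at h3
    linarith
  · intro y hy
    have h3 := scale hX hc hT.le hTL hL (Or.inr rfl : (-1 : ℝ) = 1 ∨ (-1 : ℝ) = -1) hw
      (by rw [neg_one_mul]; exact hw') hy
    rw [neg_one_mul] at h3
    linarith

end

end Pool.Agent.R595.RR
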