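import Pool.Agent.R595.RR.Chain

/-!
# Bottlenecks give rank one isometries (owner helper595)
-/

set_option autoImplicit false

universe u v

open Metric Set Filter Topology
open Pool.Agent.TH60.FP Pool.Agent.Y34.HB Pool.Agent.Y34.EL

namespace Pool.Agent.R595.RR

section

variable {X : Type u} [MetricSpace X] {G : Type v} [Group G] [MulAction G X]

/-- a good element after `a` -/
lemma exists_next [ProperSpace X] [IsIsometricSMul G X] (hX : CN X) (hGC : GC X) {o : X}
    {T ε L K : ℝ} (hT : 0 < T) (hε : 0 < ε) (hK0 : 0 ≤ K) (hTL : T + 1 ≤ L)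
    (hK : ∀ y : X, ∃ a : G, dist y (a • o) ≤ K) (a : G) (ha : L ≤ dist o (a • o)) :
    ∃ b : G, L ≤ dist o (b • o) ∧ dist o (b • o) ≤ L + 2 * K + 8 * (T * K) / ε ∧
      Cp o T (ε / 8) a b := by
  have hinv : dist o (a⁻¹ • o) = dist o (a • o) := by
    rw [← dist_smul a o (a⁻¹ • o), smul_inv_smul, dist_comm]
  set d : ℝ := dist (a⁻¹ • o) o with hd
  have hda : d = dist o (a • o) := by rw [hd, dist_comm, hinv]
  have hd0 : 0 < d := by rw [hda]; linarith
  have hne : a⁻¹ • o ≠ o := by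
    intro h
    rw [hd, h, dist_self] at hd0
    exact lt_irrefl _ hd0
  obtain ⟨c, hc, hc0, hc1⟩ := hGC _ _ hne
  rw [← hd] at hc1
  have hcd : ∀ x y : ℝ, dist (c x) (c y) = |x - y| := fun x y => by
    rw [hc.dist_eq, Real.dist_eq]
  set l : ℝ := L + K + 8 * (T * K) / ε with hl
  have h8 : 0 ≤ 8 * (T * K) / ε := by positivity
  have hdiv : ε / 8 * (8 * (T * K) / ε) = T * K := by field_simp
  have hl0 : 0 < l := by rw [hl]; linarith
  obtain ⟨b, hb⟩ := hK (c (d + l))
  have hol : dist o (c (d + l)) = l := by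
    rw [← hc1, hcd, show d - (d + l) = -l by ring, abs_neg, abs_of_pos hl0]
  have h1 := dist_triangle o (b • o) (c (d + l))
  have h2 := dist_triangle o (c (d + l)) (b • o)
  rw [dist_comm (b • o)] at h1
  refine ⟨b, by linarith, by linarith, ?_⟩
  intro p u hp hu
  have e1 : p = c (d - T) := by
    refine (t_stew X hX).2.1 o (a⁻¹ • o) T _ _ hp ⟨?_, ?_⟩
    · rw [← hc1, hcd, show d - (d - T) = T by ring, abs_of_pos hT]
    · rw [← hc0, ← hc1, hcd, hcd, sub_zero, sub_zero, abs_of_pos hd0,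
        abs_of_nonneg (by linarith)]
  have e2 : On o (c (d + l)) T (c (d + T)) := by
    refine ⟨?_, ?_⟩
    · rw [← hc1, hcd, show d - (d + T) = -T by ring, abs_neg, abs_of_pos hT]
    · rw [hol, hcd, show d + T - (d + l) = -(l - T) by ring, abs_neg,
        abs_of_nonneg (by linarith)]
  have e3 : dist (c (d + T)) u ≤ ε / 8 := by
    refine close' hX hT (by positivity) e2 hu hb ?_ ?_ (by linarith) (by linarith)
    · rw [hol]
      calc T * K = ε / 8 * (8 * (T * K) / ε) := hdiv.symm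
        _ ≤ ε / 8 * l := mul_le_mul_of_nonneg_left (by linarith) (by positivity)
    · calc T * K = ε / 8 * (8 * (T * K) / ε) := hdiv.symm
        _ ≤ ε / 8 * dist o (b • o) := mul_le_mul_of_nonneg_left (by linarith) (by positivity)
  have e4 : dist p (c (d + T)) = 2 * T := by
    rw [e1, hcd, show d - T - (d + T) = -(2 * T) by ring, abs_neg, abs_of_nonneg (by linarith)]
  have e5 := dist_triangle p u (c (d + T))
  rw [dist_comm u] at e5
  linarith

/-- a long element -/
lemma exists_long [Nontrivial X] (hGC : GC X) {o : X} {L K : ℝ} (hL : 0 ≤ L) (hK0 : 0 ≤ K)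
    (hK : ∀ y : X, ∃ a : G, dist y (a • o) ≤ K) :
    ∃ b : G, L ≤ dist o (b • o) ∧ dist o (b • o) ≤ L + 2 * K := by
  obtain ⟨q, hq⟩ := exists_ne o
  obtain ⟨c, hc, hc0, -⟩ := hGC o q hq.symm
  obtain ⟨b, hb⟩ := hK (c (L + K))
  have h0 : dist o (c (L + K)) = L + K := by
    rw [← hc0, hc.dist_eq, Real.dist_eq, zero_sub, abs_neg, abs_of_nonneg (by linarith)]
  have h1 := dist_triangle o (b • o) (c (L + K))
  have h2 := dist_triangle o (c (L + K)) (b • o)
  rw [dist_comm (b • o)] at h1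
  exact ⟨b, by linarith, by linarith⟩

lemma Pz_len [IsIsometricSMul G X] (o : X) (s : ℤ → G) (M : ℝ)
    (hs : ∀ i, dist o (s i • o) ≤ M) : ∀ (n : ℕ) (i : ℤ), dist o (Pz s i n • o) ≤ n * M := by
  intro n
  induction n with
  | zero => intro i; simp [Pz]
  | succ n ih =>
    intro i
    rw [Pz_succ, mul_smul]
    have h1 := dist_triangle o (s i • o) (s i • Pz s (i + 1) n • o)
    rw [dist_smul] at h1
    have h2 := ih (i + 1)
    have h3 := hs i
    push_cast
    linarith

/-- **effective criterion** -/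
theorem of_BP [Nontrivial X] (hG : Geo X G) (hGC : GC X) {o : X} {R T ε K : ℝ} (hT : 0 < T)
    (hR : 0 ≤ R) (hε : 0 < ε) (hBP : BP o R T ε) (hK0 : 0 ≤ K)
    (hK : ∀ y : X, ∃ a : G, dist y (a • o) ≤ K) (N : ℕ)
    (hN : ∀ y : ℕ → X, (∀ i, dist o (y i) = T) → ∃ i j, i < j ∧ j ≤ N ∧
      dist (y i) (y j) ≤ ε / 4) :
    ∃ g : G, RankOne X g ∧
      dist o (g • o) ≤ N * (T + 3 * R + 1 + 8 * (T * R) / ε + 2 * K + 8 * (T * K) / ε) := by
  have := hG.proper
  have := hG.isom
  have hX := hG.cn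
  have hinv : ∀ g : G, dist o (g⁻¹ • o) = dist o (g • o) := by
    intro g
    rw [← dist_smul g o (g⁻¹ • o), smul_inv_smul, dist_comm]
  set L : ℝ := T + 3 * R + 1 + 8 * (T * R) / ε with hL
  have h8R : 0 ≤ 8 * (T * R) / ε := by positivity
  have h8K : 0 ≤ 8 * (T * K) / ε := by positivity
  have hL1 : T * R ≤ ε / 8 * (L - R) := by
    have h1 : ε / 8 * (8 * (T * R) / ε) = T * R := by field_simp
    calc T * R = ε / 8 * (8 * (T * R) / ε) := h1.symm
      _ ≤ ε / 8 * (L - R) := mul_le_mul_of_nonneg_left (by linarith) (by positivity)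
  have hL2 : T + 2 * R + 1 ≤ L := by linarith
  set M : ℝ := L + 2 * K + 8 * (T * K) / ε with hM
  have hnext : ∀ a : {a : G // L ≤ dist o (a • o) ∧ dist o (a • o) ≤ M},
      ∃ b : {a : G // L ≤ dist o (a • o) ∧ dist o (a • o) ≤ M}, Cp o T (ε / 8) a.1 b.1 := by
    rintro ⟨a, ha, ha'⟩
    obtain ⟨b, h1, h2, h3⟩ := exists_next (G := G) hX hGC hT hε hK0 (by linarith) hK a ha
    exact ⟨⟨b, h1, h2⟩, h3⟩
  choose nx hnx using hnext
  obtain ⟨a0, ha0, ha0'⟩ := exists_long (G := G) hGC (o := o) (L := L) (by linarith) hK0 hK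
  set a : ℕ → {a : G // L ≤ dist o (a • o) ∧ dist o (a • o) ≤ M} := fun n =>
    Nat.rec ⟨a0, ha0, by linarith⟩ (fun _ b => nx b) n with ha
  have hac : ∀ n, Cp o T (ε / 8) (a n).1 (a (n + 1)).1 := fun n => hnx (a n)
  have hy : ∀ n, ∃ y, On o ((a n).1⁻¹ • o) T y := fun n =>
    (t_stew X hX).1 o _ T hT.le (by rw [hinv]; linarith [(a n).2.1])
  choose y hy using hy
  obtain ⟨m, n, hmn, hnN, hd⟩ := hN y fun i => (hy i).1
  set P : ℕ := n - m with hP
  have hP0 : 0 < P := by omega
  -- the periodic chain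
  set s : ℤ → G := fun i => (a (m + 1 + (i % (P : ℤ)).toNat)).1 with hs
  have hPz : (P : ℤ) ≠ 0 := by positivity
  have hper : ∀ i, s (i + P) = s i := by
    intro i
    rw [hs]
    simp only [Int.add_emod_right]
  have hcomp : ∀ i, Cp o T (ε / 2) (s i) (s (i + 1)) := by
    intro i
    set r : ℕ := (i % (P : ℤ)).toNat with hr
    have hr0 : 0 ≤ i % (P : ℤ) := Int.emod_nonneg _ hPz
    have hr1 : i % (P : ℤ) < P := Int.emod_lt_of_pos _ (by positivity)
    have hrr : (r : ℤ) = i % (P : ℤ) := by rw [hr, Int.toNat_of_nonneg hr0]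
    have hrP : r < P := by
      have : (r : ℤ) < P := by rw [hrr]; exact hr1
      exact_mod_cast this
    have e1 : s i = (a (m + 1 + r)).1 := rfl
    have e2 : s (i + 1) = (a (m + 1 + ((r + 1) % P))).1 := by
      rw [hs]
      simp only
      congr 3
      have h1 : (i + 1) % (P : ℤ) = (((r + 1) % P : ℕ) : ℤ) := by
        rw [Int.natCast_mod]
        push_cast
        rw [hrr]
        exact (Int.emod_add_emod i P 1).symm
      rw [h1, Int.toNat_natCast]
    rw [e1, e2]
    rcases Nat.lt_or_ge (r + 1) P with h | h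
    · rw [Nat.mod_eq_of_lt h]
      intro p q hp hq
      have := hac (m + 1 + r) p q hp hq
      linarith
    · have h1 : r + 1 = P := by omega
      rw [h1, Nat.mod_self, add_zero]
      have h2 : m + 1 + r = n := by omega
      rw [h2]
      intro p q hp hq
      have h3 := hac m (y m) q (hy m) hq
      have h4 : p = y n := (t_stew X hX).2.1 _ _ _ _ _ hp (hy n)
      have h5 := dist_triangle (y m) (y n) q
      rw [h4]
      linarith
  refine ⟨Pz s 0 P, rank_of_chain hG hT hR hε hBP hL1 hL2 s (fun i => (a _).2.1) hcomp P hP0 hper,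
    ?_⟩
  have h1 := Pz_len o s M (fun i => (a _).2.2) P 0
  have h2 : (P : ℝ) ≤ N := by
    have : P ≤ N := by omega
    exact_mod_cast this
  have hM0 : 0 ≤ M := by rw [hM]; linarith
  calc dist o (Pz s 0 P • o) ≤ P * M := h1
    _ ≤ N * M := mul_le_mul_of_nonneg_right h2 hM0

/-- pigeonhole on spheres -/
lemma exists_N [ProperSpace X] (o : X) (T δ : ℝ) (hδ : 0 < δ) :
    ∃ N : ℕ, ∀ y : ℕ → X, (∀ i, dist o (y i) = T) → ∃ i j, i < j ∧ j ≤ N ∧
      dist (y i) (y j) ≤ δ := by
  classical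
  obtain ⟨t, -, htf, ht⟩ := (isCompact_closedBall o T).finite_cover_balls
    (show 0 < δ / 2 by positivity)
  refine ⟨htf.toFinset.card, fun y hy => ?_⟩
  have h1 : ∀ i : ℕ, ∃ z ∈ htf.toFinset, dist (y i) z < δ / 2 := by
    intro i
    have h2 : y i ∈ closedBall o T := by rw [mem_closedBall, dist_comm, hy]
    obtain ⟨z, hz, hz'⟩ := mem_iUnion₂.1 (ht h2)
    exact ⟨z, htf.mem_toFinset.2 hz, mem_ball.1 hz'⟩
  choose f hf hf' using h1
  obtain ⟨i, hi, j, hj, hij, he⟩ := Finset.exists_ne_map_eq_of_card_lt_of_maps_to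
    (s := Finset.range (htf.toFinset.card + 1)) (t := htf.toFinset) (f := f)
    (by rw [Finset.card_range]; omega) (fun i _ => hf i)
  rw [Finset.mem_range] at hi hj
  have hd : dist (y i) (y j) ≤ δ := by
    have a1 := hf' i
    have a2 := hf' j
    rw [← he] at a2
    have a3 := dist_triangle_right (y i) (y j) (f i)
    linarith
  rcases lt_or_gt_of_ne hij with h | h
  · exact ⟨i, j, h, by omega, hd⟩
  · exact ⟨j, i, h, by omega, by rwa [dist_comm]⟩

/-- a point through which no line bounds a half-plane is a bottleneck -/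
theorem bp_of [ProperSpace X] (hX : CN X) (o : X)
    (h : ∀ σ : ℝ → X, Isometry σ → σ 0 = o → HP σ = ∅) :
    ∃ R T ε : ℝ, 0 ≤ R ∧ 0 < T ∧ 0 < ε ∧ BP o R T ε := by
  classical
  by_contra hcon
  push Not at hcon
  have hseq : ∀ n : ℕ, ∃ p q a b : X, On o p (n + 1) a ∧ On o q (n + 1) b ∧
      2 * ((n : ℝ) + 1) - 1 / (n + 1) ≤ dist a b ∧
      ∀ m, dist p m + dist m q = dist p q → (n : ℝ) < dist o m := by
    intro n
    have h1 := hcon n (n + 1) (1 / (n + 1)) (Nat.cast_nonneg n) (by positivity) (by positivity)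
    rw [BP] at h1
    push Not at h1
    obtain ⟨p, q, a, b, h2, h3, h4, h5⟩ := h1
    exact ⟨p, q, a, b, h2, h3, h4, h5⟩
  choose p q a b ha hb hab hfar using hseq
  have hpn : ∀ n : ℕ, (n : ℝ) + 1 ≤ dist o (p n) := by
    intro n
    have h1 := (ha n).2
    have h2 : 0 ≤ dist (a n) (p n) := dist_nonneg
    linarith
  have hqn : ∀ n : ℕ, (n : ℝ) + 1 ≤ dist o (q n) := by
    intro n
    have h1 := (hb n).2
    have h2 : 0 ≤ dist (b n) (q n) := dist_nonneg
    linarith
  have hle : (hyperfilter ℕ : Filter ℕ) ≤ atTop := by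
    rw [← Nat.cofinite_eq_atTop]
    exact hyperfilter_le_cofinite
  have hnt : Tendsto (fun n : ℕ => (n : ℝ)) (hyperfilter ℕ : Filter ℕ) atTop :=
    tendsto_natCast_atTop_atTop.mono_left hle
  have hp : Tendsto (fun n => dist o (p n)) (hyperfilter ℕ : Filter ℕ) atTop :=
    tendsto_atTop_mono (fun n => by linarith [hpn n]) hnt
  have hq : Tendsto (fun n => dist o (q n)) (hyperfilter ℕ : Filter ℕ) atTop :=
    tendsto_atTop_mono (fun n => by linarith [hqn n]) hnt
  obtain ⟨η, hη, hη'⟩ := t_lray X hX o p hp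
  obtain ⟨ζ, hζ, hζ'⟩ := t_lray X hX o q hq
  -- opposite rays
  have hopp : ∀ s t : ℝ, 0 ≤ s → 0 ≤ t → dist (η s) (ζ t) = s + t := by
    intro s t hs ht
    refine le_antisymm ?_ ?_
    · have h1 := dist_triangle (η s) o (ζ t)
      have h2 := hη.2 s 0 hs le_rfl
      have h3 := hζ.2 0 t le_rfl ht
      rw [hη.1, sub_zero, abs_of_nonneg hs] at h2
      rw [hζ.1, zero_sub, abs_neg, abs_of_nonneg ht] at h3
      linarith
    · refine le_of_forall_pos_le_add fun δ hδ => ?_
      have h1 := hη' s (δ / 3) hs (by positivity)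
      have h2 := hζ' t (δ / 3) ht (by positivity)
      have h3 : ∀ᶠ n : ℕ in (hyperfilter ℕ : Filter ℕ), max (max s t) (3 / δ) ≤ (n : ℝ) :=
        hnt.eventually (eventually_ge_atTop _)
      obtain ⟨n, ⟨h4, h5⟩, h6⟩ := ((h1.and h2).and h3).exists
      have hns : s ≤ n := ((le_max_left _ _).trans (le_max_left _ _)).trans h6
      have hnt' : t ≤ n := ((le_max_right _ _).trans (le_max_left _ _)).trans h6
      have hnd : 3 / δ ≤ n := (le_max_right _ _).trans h6
      obtain ⟨u, hu⟩ := (t_stew X hX).1 o (p n) s hs (by linarith [hpn n])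
      obtain ⟨w, hw⟩ := (t_stew X hX).1 o (q n) t ht (by linarith [hqn n])
      have e1 := h4 u hu
      have e2 := h5 w hw
      have e3 : dist u (a n) = (n + 1) - s :=
        Pool.Agent.Y350.EL.on_dist t_stew hX hs (by linarith) hu (ha n)
      have e4 : dist w (b n) = (n + 1) - t :=
        Pool.Agent.Y350.EL.on_dist t_stew hX ht (by linarith) hw (hb n)
      have e5 := dist_triangle4 (a n) u w (b n)
      have e6 := hab n
      rw [dist_comm (a n) u] at e5
      have e7 := dist_triangle4 u (η s) (ζ t) w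
      rw [dist_comm (ζ t) w] at e7
      have e8 : 1 / ((n : ℝ) + 1) ≤ δ / 3 := by
        rw [div_le_iff₀ (by positivity)]
        rw [div_le_iff₀ hδ] at hnd
        nlinarith
      linarith
  -- the line
  set σ : ℝ → X := fun t => if 0 ≤ t then ζ t else η (-t) with hσ
  have hσp : ∀ t : ℝ, 0 ≤ t → σ t = ζ t := fun t ht => by rw [hσ]; simp only [ht, if_true]
  have hσn : ∀ t : ℝ, t ≤ 0 → σ t = η (-t) := by
    intro t ht
    rcases ht.lt_or_eq with h1 | h1
    · rw [hσ]
      simp only [not_le.2 h1, if_false]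
    · rw [h1, neg_zero, hη.1, hσp 0 le_rfl, hζ.1]
  have hσ0 : σ 0 = o := by rw [hσp 0 le_rfl, hζ.1]
  have hσi : Isometry σ := by
    have key : ∀ s t : ℝ, s ≤ t → dist (σ s) (σ t) = t - s := by
      intro s t hst
      rcases le_total 0 s with h1 | h1
      · rw [hσp s h1, hσp t (h1.trans hst), hζ.2 s t h1 (h1.trans hst), abs_sub_comm,
          abs_of_nonneg (by linarith)]
      · rcases le_total 0 t with h2 | h2
        · rw [hσn s h1, hσp t h2, hopp (-s) t (by linarith) h2]
          ring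
        · rw [hσn s h1, hσn t h2, hη.2 (-s) (-t) (by linarith) (by linarith),
            abs_of_nonneg (by linarith)]
          ring
    refine Isometry.of_dist_eq fun s t => ?_
    rw [Real.dist_eq]
    rcases le_total s t with h1 | h1
    · rw [key s t h1, abs_sub_comm, abs_of_nonneg (by linarith)]
    · rw [dist_comm, key t s h1, abs_of_nonneg (by linarith)]
  obtain ⟨R, T, hT, hRO⟩ := t_ro X hX σ hσi (h σ hσi hσ0)
  rw [hσ0, hσp T hT.le, hσn (-T) (by linarith), neg_neg] at hRO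
  have h1 := hη' T 1 hT.le one_pos
  have h2 := hζ' T 1 hT.le one_pos
  have h3 : ∀ᶠ n : ℕ in (hyperfilter ℕ : Filter ℕ), max R T ≤ (n : ℝ) :=
    hnt.eventually (eventually_ge_atTop _)
  obtain ⟨n, ⟨h4, h5⟩, h6⟩ := ((h1.and h2).and h3).exists
  have hnR : R ≤ n := (le_max_left _ _).trans h6
  have hnT : T ≤ n := (le_max_right _ _).trans h6
  obtain ⟨m, hm1, hm2⟩ := hRO (p n) (q n) (by linarith [hpn n]) (by linarith [hqn n]) h4 h5
  have := hfar n m hm1
  linarith

/-- **a point through which no line bounds a flat half-plane gives a rank one isometry** -/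
theorem of_point [Nontrivial X] (hG : Geo X G) (hGC : GC X) (o : X)
    (h : ∀ σ : ℝ → X, Isometry σ → σ 0 = o → HP σ = ∅) : ∃ g : G, RankOne X g := by
  have := hG.proper
  have := hG.isom
  have hX := hG.cn
  obtain ⟨R, T, ε, hR, hT, hε, hBP⟩ := bp_of hX o h
  obtain ⟨N, hN⟩ := exists_N o T (ε / 4) (by positivity)
  obtain ⟨A, hA, hcov⟩ := hG.cc
  obtain ⟨B, hB⟩ := hA.isBounded.subset_closedBall o
  have hcl : ∀ y : X, ∃ a : G, dist y (a • o) ≤ max B 0 := by
    intro y
    obtain ⟨g, hg⟩ := hcov y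
    refine ⟨g⁻¹, ?_⟩
    have h1 : dist (g • y) o ≤ B := mem_closedBall.1 (hB hg)
    have h2 : dist y (g⁻¹ • o) = dist (g • y) o := by
      rw [← dist_smul g y (g⁻¹ • o), smul_inv_smul]
    rw [h2]
    exact h1.trans (le_max_left _ _)
  obtain ⟨g, hg, -⟩ := of_BP hG hGC hT hR hε hBP (le_max_right _ _) hcl N hN
  exact ⟨g, hg⟩

end

end Pool.Agent.R595.RR
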