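import Pool.Agent.R595.RR.Dual

/-!
# The points dual to a point at infinity form a closed invariant set (owner helper595)
-/

set_option autoImplicit false

universe u v

open Metric Set Filter Topology
open Pool.Agent.TH60.FP Pool.Agent.Y34.HB Pool.Agent.Y34.EL

namespace Pool.Agent.R595.RR

/-- `A` is the set of the rays with end in a nonempty closed invariant subset of the boundary -/
structure CI {X : Type u} [MetricSpace X] (G : Type v) [Group G] [MulAction G X]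
    (A : Set (ℝ → X)) : Prop where
  nonempty : A.Nonempty
  ray : ∀ c ∈ A, IsRay c
  invariant : ∀ c ∈ A, ∀ (g : G) (c' : ℝ → X), IsRay c' →
    (∃ K : ℝ, ∀ t : ℝ, 0 ≤ t → dist (c' t) (g • c t) ≤ K) → c' ∈ A
  closed : ∀ c : ℝ → X, IsRay c → (∀ t : ℝ, 0 < t → ∃ c' ∈ A, c' 0 = c 0 ∧
    dist (c' t) (c t) ≤ 1) → c ∈ A

section

variable {X : Type u} [MetricSpace X] {G : Type v} [Group G] [MulAction G X]

/-- large scales -/
lemma scales (t E : ℝ) (ht : 0 < t) (hE : 0 ≤ E) : ∃ s δ : ℝ, 2 * t ≤ s ∧ 0 < δ ∧ δ ≤ 1 / 2 ∧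
    8 * (t * δ) ≤ 1 ∧ E ≤ δ * s := by
  refine ⟨(E + 1) * (8 * t + 2), 1 / (8 * t + 2), ?_, by positivity, ?_, ?_, ?_⟩
  · have h1 : 1 * (8 * t + 2) ≤ (E + 1) * (8 * t + 2) :=
      mul_le_mul_of_nonneg_right (by linarith) (by linarith)
    linarith
  · exact one_div_le_one_div_of_le (by norm_num) (by linarith)
  · rw [mul_one_div, ← mul_div_assoc, div_le_one (by positivity)]
    linarith
  · have h1 : 1 / (8 * t + 2) * ((E + 1) * (8 * t + 2)) = E + 1 := by field_simp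
    rw [h1]
    linarith

/-- duality only depends on the ends, and is invariant -/
lemma Du_change [ProperSpace X] [IsIsometricSMul G X] (hX : CN X) {η c c' : ℝ → X}
    (hη : IsRay η) (hc : IsRay c) (hc' : IsRay c') (γ : G) {K : ℝ}
    (hK : ∀ t : ℝ, 0 ≤ t → dist (c' t) (γ • c t) ≤ K) (h : Du G η c) : Du G η c' := by
  intro t ht
  have hK0 : 0 ≤ K := dist_nonneg.trans (hK 0 le_rfl)
  obtain ⟨D1, hD1⟩ : ∃ D : ℝ, D = dist (η 0) (γ⁻¹ • η 0) := ⟨_, rfl⟩
  obtain ⟨D2, hD2⟩ : ∃ D : ℝ, D = dist (c 0) (c' 0) := ⟨_, rfl⟩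
  have hD10 : 0 ≤ D1 := by rw [hD1]; exact dist_nonneg
  have hD20 : 0 ≤ D2 := by rw [hD2]; exact dist_nonneg
  obtain ⟨s, δ, hts, hδ0, hδ1, hδt, hE⟩ := scales t (D1 + D2 + 2 * K + 1) ht (by positivity)
  have hs : 0 < s := by linarith
  obtain ⟨g, ⟨z, hz, hz'⟩, ⟨w, hw, hw'⟩⟩ := h s hs
  refine ⟨g * γ⁻¹, ?_, ?_⟩
  · obtain ⟨z', h1, h2⟩ := fellow hX (a' := η 0) (b' := (g * γ⁻¹) • η 0)
      (show dist (η 0) z + dist z (g • η 0) = dist (η 0) (g • η 0) by
        rw [hz.1, hz.2]; ring)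
    rw [mul_smul, dist_smul, dist_self, ← hD1] at h2
    refine cone_of hX hη ht hts hδ0 hδ1 hδt h1 ?_
    have h3 := dist_triangle z' z (η s)
    rw [dist_comm z' z] at h3
    linarith
  · have e : (g * γ⁻¹)⁻¹ • c' 0 = γ • g⁻¹ • c' 0 := by
      rw [mul_inv_rev, inv_inv, mul_smul]
    rw [e]
    obtain ⟨w', h1, h2⟩ := fellow hX (a := γ • c 0) (b := γ • g⁻¹ • c 0) (y := γ • w) (a' := c' 0)
      (b' := γ • g⁻¹ • c' 0) (by
        rw [dist_smul, dist_smul, dist_smul, hw.1, hw.2]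
        ring)
    rw [dist_smul γ (g⁻¹ • c 0) (g⁻¹ • c' 0), dist_smul g⁻¹, ← hD2, dist_comm (γ • c 0)] at h2
    refine cone_of hX hc' ht hts hδ0 hδ1 hδt h1 ?_
    have h3 := dist_triangle4 w' (γ • w) (γ • c s) (c' s)
    rw [dist_smul, dist_comm w' (γ • w), dist_comm (γ • c s) (c' s)] at h3
    have h4 := hK 0 le_rfl
    have h5 := hK s hs.le
    linarith

/-- the set of points dual to the end of a ray -/
theorem CI_dual (hG : Geo X G) {η : ℝ → X} (hη : IsRay η) :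
    CI G {c : ℝ → X | IsRay c ∧ Du G η c} := by
  have := hG.proper
  have := hG.isom
  have hX := hG.cn
  refine ⟨?_, fun c hc => hc.1, ?_, ?_⟩
  · set o : X := η 0 with ho
    obtain ⟨A, hA, hcov⟩ := hG.cc
    obtain ⟨B, hB⟩ := hA.isBounded.subset_closedBall o
    obtain ⟨K, hK⟩ : ∃ K : ℝ, K = max B 0 := ⟨_, rfl⟩
    have hK0 : 0 ≤ K := by rw [hK]; exact le_max_right _ _
    have hcl : ∀ y : X, ∃ a : G, dist y (a • o) ≤ K := by
      intro y
      obtain ⟨g, hg⟩ := hcov y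
      refine ⟨g⁻¹, ?_⟩
      have h1 : dist (g • y) o ≤ B := mem_closedBall.1 (hB hg)
      have h2 : dist y (g⁻¹ • o) = dist (g • y) o := by
        rw [← dist_smul g y (g⁻¹ • o), smul_inv_smul]
      rw [h2, hK]
      exact h1.trans (le_max_left _ _)
    choose g hg using fun n : ℕ => hcl (η n)
    have hinv : ∀ g : G, dist o (g⁻¹ • o) = dist o (g • o) := by
      intro g
      rw [← dist_smul g o (g⁻¹ • o), smul_inv_smul, dist_comm]
    have hηn : ∀ n : ℕ, dist o (η n) = n := by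
      intro n
      rw [ho, hη 0 n le_rfl (Nat.cast_nonneg n), zero_sub, abs_neg, Nat.abs_cast]
    have hle : (hyperfilter ℕ : Filter ℕ) ≤ atTop := by
      rw [← Nat.cofinite_eq_atTop]
      exact hyperfilter_le_cofinite
    have hnt : Tendsto (fun n : ℕ => (n : ℝ)) (hyperfilter ℕ : Filter ℕ) atTop :=
      tendsto_natCast_atTop_atTop.mono_left hle
    have hlow : ∀ n : ℕ, (n : ℝ) - K ≤ dist o ((g n)⁻¹ • o) := by
      intro n
      rw [hinv]
      have h1 := dist_triangle o (g n • o) (η n)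
      rw [hηn, dist_comm (g n • o)] at h1
      linarith [hg n]
    have htend : Tendsto (fun n => dist o ((g n)⁻¹ • o)) (hyperfilter ℕ : Filter ℕ) atTop :=
      tendsto_atTop_mono hlow (tendsto_atTop_add_const_right _ (-K) hnt)
    obtain ⟨c, hc, hc'⟩ := t_lray X hX o _ htend
    refine ⟨c, fun s t hs ht => hc.2 s t hs ht, fun t ht => ?_⟩
    obtain ⟨s, δ, hts, hδ0, hδ1, hδt, hE⟩ := scales t K ht hK0
    have h1 : ∀ᶠ n : ℕ in (hyperfilter ℕ : Filter ℕ), max s (t + K) ≤ (n : ℝ) :=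
      hnt.eventually (eventually_ge_atTop _)
    obtain ⟨n, h2, h3⟩ := (h1.and (hc' t (1 / 4) ht.le (by norm_num))).exists
    have hsn : s ≤ n := (le_max_left _ _).trans h2
    have htn : t + K ≤ n := (le_max_right _ _).trans h2
    refine ⟨g n, ?_, ?_⟩
    · refine cone_of hX hη (s := n) ht (by linarith) hδ0 hδ1 hδt (B := g n • η 0)
        (by rw [dist_self, add_zero]) ?_
      rw [dist_comm]
      calc dist (η n) (g n • η 0) ≤ K := hg n
        _ ≤ δ * s := hE
        _ ≤ δ * n := mul_le_mul_of_nonneg_left hsn hδ0.le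
    · have h4 := hlow n
      rw [hc.1]
      obtain ⟨y, hy⟩ := (t_stew X hX).1 o ((g n)⁻¹ • o) t ht.le (by linarith)
      refine ⟨y, ?_, h3 y hy⟩
      have e1 : dist o (c t) = t := by
        have := hc.2 0 t le_rfl ht.le
        rw [hc.1, zero_sub, abs_neg, abs_of_pos ht] at this
        exact this
      rw [e1]
      exact hy
  · rintro c ⟨hc, hd⟩ γ c' hc' ⟨K, hK⟩
    exact ⟨hc', Du_change hX hη hc hc' γ hK hd⟩
  · intro c hc h
    refine ⟨hc, fun t ht => ?_⟩
    obtain ⟨s, δ, hts, hδ0, hδ1, hδt, hE⟩ := scales t (5 / 4) ht (by norm_num)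
    have hs : 0 < s := by linarith
    obtain ⟨c', ⟨hc1, hc2⟩, hc3, hc4⟩ := h s hs
    obtain ⟨g, ⟨z, hz, hz'⟩, ⟨w, hw, hw'⟩⟩ := hc2 s hs
    refine ⟨g, ?_, ?_⟩
    · refine cone_of hX hη ht hts hδ0 hδ1 hδt (B := z) (by rw [hz.1, hz.2]; ring) ?_
      linarith
    · rw [hc3] at hw
      refine cone_of hX hc ht hts hδ0 hδ1 hδt (B := w) (by rw [hw.1, hw.2]; ring) ?_
      have h5 := dist_triangle w (c' s) (c s)
      linarith

/-- cycles of dual lines -/
theorem cycle (hG : Geo X G) (k : ℕ) (c : ℕ → ℝ → X) (hc : ∀ i, Isometry (c i))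
    (hd : ∀ i, i < k → Du G (c i) (fun t => c (i + 1) (-t)))
    (hk : Du G (c k) (fun t => c 0 (-t))) (hHP : HP (c 0) = ∅) : ∃ g : G, RankOne X g := by
  have := hG.proper
  have := hG.isom
  have hX := hG.cn
  have h1 : ∀ i, i ≤ k → ∀ c' : ℝ → X, IsRay c' → Du G (c i) c' → Du G (c 0) c' := by
    intro i
    induction i with
    | zero => intro _ c' _ h; exact h
    | succ i ih =>
      intro hi c' hc' h
      refine ih (by omega) c' hc' ?_
      exact Du_comp hX (isRay_pos (hc i)) hc' (hc (i + 1)) (hd i (by omega)) h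
  exact Du_close hG (hc 0) hHP (h1 k le_rfl _ (isRay_neg (hc 0)) hk)

/-- self-opposite closed invariant sets -/
theorem self_opp (hG : Geo X G)
    (hS : ∀ A : Set (ℝ → X), CI G A → ∃ σ : ℝ → X, Isometry σ ∧ σ ∈ A ∧ (fun t => σ (-t)) ∈ A)
    (c : ℝ → X) (hc : Isometry c) (hHP : HP c = ∅) : ∃ g : G, RankOne X g := by
  have := hG.proper
  have := hG.isom
  have hX := hG.cn
  have key : ∀ η : ℝ → X, IsRay η → Du G η η := by
    intro η hη
    obtain ⟨σ, hσ, h1, h2⟩ := hS _ (CI_dual hG hη)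
    exact Du_comp hX hη hη hσ h2.2 (Du_symm h1.2)
  have hneg : Isometry (fun t => c (-t)) := by
    refine Isometry.of_dist_eq fun s t => ?_
    rw [hc.dist_eq, Real.dist_eq, Real.dist_eq, show -s - -t = -(s - t) by ring, abs_neg]
  refine Du_close hG hc hHP ?_
  refine Du_comp hX (isRay_pos hc) (isRay_neg hc) hneg ?_ (key _ (isRay_neg hc))
  simp only [neg_neg]
  exact key _ (isRay_pos hc)

end

end Pool.Agent.R595.RR
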