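import Pool.Agent.R595.RR.Inv

/-!
# Involutions with finite centralizer and duality (owner helper595)
-/

set_option autoImplicit false

universe u v

open Metric Set Filter Topology
open Pool.Agent.TH60.FP Pool.Agent.Y34.HB Pool.Agent.Y34.EL

namespace Pool.Agent.R595.RR

section

variable {X : Type u} [MetricSpace X] {G : Type v} [Group G] [MulAction G X]

/-- the translates of a point are coarsely dense -/
lemma dense_orbit (hG : Geo X G) (o : X) : ∃ K : ℝ, 0 ≤ K ∧ ∀ y : X, ∃ a : G,
    dist y (a • o) ≤ K := by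
  have := hG.proper
  have := hG.isom
  obtain ⟨A, hA, hcov⟩ := hG.cc
  obtain ⟨B, hB⟩ := hA.isBounded.subset_closedBall o
  refine ⟨max B 0, le_max_right _ _, fun y => ?_⟩
  obtain ⟨g, hg⟩ := hcov y
  refine ⟨g⁻¹, ?_⟩
  have h1 : dist (g • y) o ≤ B := mem_closedBall.1 (hB hg)
  have h2 : dist y (g⁻¹ • o) = dist (g • y) o := by
    rw [← dist_smul g y (g⁻¹ • o), smul_inv_smul]
  rw [h2]
  exact h1.trans (le_max_left _ _)

/-- an element with finite centralizer has a bounded fixed point set -/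
lemma fix_bounded (hG : Geo X G) (o : X) (r : G)
    (hfin : (Subgroup.centralizer {r} : Set G).Finite) :
    ∃ B : ℝ, 0 ≤ B ∧ ∀ z : X, r • z = z → dist z o ≤ B := by
  classical
  have := hG.proper
  have := hG.isom
  have := hG.disc
  obtain ⟨K, hK, hd⟩ := dense_orbit hG o
  have hS : Set.Finite {g : G | ((fun x : X => g • x) '' {o} ∩ closedBall o (2 * K)).Nonempty} :=
    ProperlyDiscontinuousSMul.finite_disjoint_inter_image isCompact_singleton
      (isCompact_closedBall o (2 * K))
  set f : G → G := fun s => if h : ∃ a : G, a⁻¹ * r * a = s then h.choose else 1 with hf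
  have hf1 : ∀ a : G, (f (a⁻¹ * r * a))⁻¹ * r * f (a⁻¹ * r * a) = a⁻¹ * r * a := by
    intro a
    have h : ∃ b : G, b⁻¹ * r * b = a⁻¹ * r * a := ⟨a, rfl⟩
    have e : f (a⁻¹ * r * a) = h.choose := by
      rw [hf]
      exact dif_pos h
    rw [e]
    exact h.choose_spec
  have hfinT : Set.Finite (Set.image2 (fun (h s : G) => h • f s • o)
      (Subgroup.centralizer {r} : Set G)
      {g : G | ((fun x : X => g • x) '' {o} ∩ closedBall o (2 * K)).Nonempty}) :=
    Set.Finite.image2 _ hfin hS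
  obtain ⟨B, hB⟩ := hfinT.isBounded.subset_closedBall o
  refine ⟨K + max B 0, add_nonneg hK (le_max_right _ _), fun z hz => ?_⟩
  obtain ⟨a, ha⟩ := hd z
  set s : G := a⁻¹ * r * a with hs
  have hsS : s ∈ {g : G | ((fun x : X => g • x) '' {o} ∩ closedBall o (2 * K)).Nonempty} := by
    refine ⟨s • o, ⟨o, rfl, rfl⟩, ?_⟩
    rw [mem_closedBall]
    have h1 : dist (s • o) o = dist (r • a • o) (a • o) := by
      rw [← dist_smul a (s • o) o, hs, mul_smul, mul_smul, smul_inv_smul]
    have h2 := dist_triangle (r • a • o) z (a • o)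
    have h3 : dist (r • a • o) z = dist (a • o) z := by
      conv_lhs => rw [← hz]
      exact dist_smul r _ _
    rw [h1]
    rw [h3, dist_comm (a • o) z] at h2
    linarith
  have hc : a * (f s)⁻¹ ∈ (Subgroup.centralizer {r} : Set G) := by
    rw [SetLike.mem_coe, Subgroup.mem_centralizer_singleton_iff]
    have h1 := hf1 a
    rw [← hs] at h1
    have h2 : a * ((f s)⁻¹ * r * f s) * a⁻¹ = r := by
      rw [h1, hs]
      group
    calc a * (f s)⁻¹ * r = (a * ((f s)⁻¹ * r * f s) * a⁻¹) * (a * (f s)⁻¹) := by group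
      _ = r * (a * (f s)⁻¹) := by rw [h2]
  have h4 : a • o ∈ closedBall o B := by
    apply hB
    refine ⟨a * (f s)⁻¹, hc, s, hsS, ?_⟩
    simp only [smul_smul]
    rw [inv_mul_cancel_right]
  rw [mem_closedBall] at h4
  have h5 := dist_triangle z (a • o) o
  have h6 := le_max_left B 0
  linarith

/-- an involution fixes the midpoint of a point and its image -/
lemma mid_fixed [IsIsometricSMul G X] (hX : CN X) (g : G) (hg : g * g = 1) (p : X) :
    ∃ m : X, g • m = m ∧ dist p m + dist m (g • p) = dist p (g • p) := by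
  obtain ⟨m, hm⟩ := hX p (g • p)
  have e1 := hm p
  have e2 := hm (g • p)
  have e3 := hm (g • m)
  rw [dist_self] at e1 e2
  have d0 : 0 ≤ dist p (g • p) := dist_nonneg
  have a1 : dist p m ≤ dist p (g • p) / 2 := by
    apply le_of_sq_le_sq _ (by positivity)
    rw [dist_comm p (g • p)] at e1 ⊢
    nlinarith
  have a2 : dist (g • p) m ≤ dist p (g • p) / 2 := by
    apply le_of_sq_le_sq _ (by positivity)
    rw [dist_comm (g • p) p] at e2
    nlinarith
  have b1 : dist (g • m) (g • p) = dist p m := by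
    rw [dist_smul, dist_comm]
  have b2 : dist (g • m) p = dist (g • p) m := by
    have : g • g • p = p := by rw [smul_smul, hg, one_smul]
    conv_lhs => rw [← this]
    rw [dist_smul, dist_comm]
  rw [b1, b2] at e3
  have c0 : 0 ≤ dist p m := dist_nonneg
  have c1 : 0 ≤ dist (g • p) m := dist_nonneg
  have c2 : dist (g • m) m ^ 2 ≤ 0 := by nlinarith
  have c3 : dist (g • m) m = 0 := by
    have := sq_nonneg (dist (g • m) m)
    exact pow_eq_zero_iff (two_ne_zero) |>.1 (le_antisymm c2 this)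
  refine ⟨m, dist_eq_zero.1 c3, ?_⟩
  have t1 := dist_triangle p m (g • p)
  rw [dist_comm m (g • p)] at t1 ⊢
  linarith

/-- all points at infinity are self-dual -/
theorem self_dual' (hG : Geo X G) (r : G) (hr : r * r = 1)
    (hb : ∀ o : X, ∃ B : ℝ, 0 ≤ B ∧ ∀ z : X, r • z = z → dist z o ≤ B)
    {c : ℝ → X} (hc : IsRay c) : Du G c c := by
  have := hG.proper
  have := hG.isom
  have hX := hG.cn
  intro t ht
  obtain ⟨K, hK, hd⟩ := dense_orbit hG (c 0)
  obtain ⟨B, hB, hfix⟩ := hb (c 0)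
  set δ : ℝ := min (1 / 2) (1 / (8 * t)) with hδ
  have hδ0 : 0 < δ := lt_min (by norm_num) (by positivity)
  have hδ1 : δ ≤ 1 / 2 := min_le_left _ _
  have hδt : 8 * (t * δ) ≤ 1 := by
    have h1 : δ ≤ 1 / (8 * t) := min_le_right _ _
    rw [le_div_iff₀ (by positivity)] at h1
    linarith
  set s : ℝ := max (2 * t) ((K + B) / δ) with hs
  have hts : 2 * t ≤ s := le_max_left _ _
  have hKs : K + B ≤ δ * s := by
    have h1 : (K + B) / δ ≤ s := le_max_right _ _
    rw [div_le_iff₀ hδ0] at h1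
    linarith
  obtain ⟨a, ha⟩ := hd (c s)
  set g : G := a * r * a⁻¹ with hg
  have hgg : g * g = 1 := by
    have : g * g = a * (r * r) * a⁻¹ := by rw [hg]; group
    rw [this, hr]
    group
  obtain ⟨m, hm1, hm2⟩ := mid_fixed hX g hgg (c 0)
  have h1 : r • a⁻¹ • m = a⁻¹ • m := by
    have h2 : a⁻¹ • g • m = r • a⁻¹ • m := by
      rw [hg]
      simp only [smul_smul]
      congr 1
      group
    rw [← h2, hm1]
  have h2 := hfix _ h1
  have h3 : dist m (a • c 0) = dist (a⁻¹ • m) (c 0) := by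
    rw [← dist_smul a (a⁻¹ • m) (c 0), smul_inv_smul]
  have h4 : dist m (c s) ≤ δ * s := by
    have h5 := dist_triangle m (a • c 0) (c s)
    rw [h3, dist_comm (a • c 0) (c s)] at h5
    linarith
  have h6 : g • c 0 ∈ Cone (c 0) (c t) := cone_of hX hc ht hts hδ0 hδ1 hδt hm2 h4
  refine ⟨g, h6, ?_⟩
  rw [inv_eq_of_mul_eq_one_left hgg]
  exact h6

theorem self_dual (hG : Geo X G) (r : G) (hr : r * r = 1)
    (hfin : (Subgroup.centralizer {r} : Set G).Finite) {c : ℝ → X} (hc : IsRay c) : Du G c c :=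
  self_dual' hG r hr (fun o => fix_bounded hG o r hfin) hc

/-- self-duality under the hypothesis on closed invariant sets -/
theorem self_dual_S (hG : Geo X G)
    (hS : ∀ A : Set (ℝ → X), CI G A → ∃ σ : ℝ → X, Isometry σ ∧ σ ∈ A ∧ (fun t => σ (-t)) ∈ A)
    {η : ℝ → X} (hη : IsRay η) : Du G η η := by
  have := hG.proper
  have := hG.isom
  obtain ⟨σ, hσ, h1, h2⟩ := hS _ (CI_dual hG hη)
  exact Du_comp hG.cn hη hη hσ h2.2 (Du_symm h1.2)

/-- the duality condition -/
theorem dual_ends (hG : Geo X G) (hsd : ∀ c : ℝ → X, IsRay c → Du G c c)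
    {c : ℝ → X} (hc : Isometry c) : Du G c (fun t => c (-t)) := by
  have := hG.proper
  have := hG.isom
  exact Du_symm (Du_comp hG.cn (isRay_neg hc) (isRay_pos hc) hc
    (hsd _ (isRay_neg hc)) (hsd _ (isRay_pos hc)))

/-- rank one or half-planes -/
theorem sd_rank (hG : Geo X G) (hsd : ∀ c : ℝ → X, IsRay c → Du G c c)
    {c : ℝ → X} (hc : Isometry c) (hHP : HP c = ∅) : ∃ g : G, RankOne X g :=
  Du_close hG hc hHP (dual_ends hG hsd hc)

end

end Pool.Agent.R595.RR
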