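import Pool.Agent.R595.RR.Norm

/-!
# Dual closed invariant sets which are joined by lines (owner helper595)
-/

set_option autoImplicit false

universe u v

open Metric Set Filter Topology
open Pool.Agent.TH60.FP Pool.Agent.Y34.HB Pool.Agent.Y34.EL

namespace Pool.Agent.R595.RR

section

variable {X : Type u} [MetricSpace X] {G : Type v} [Group G] [MulAction G X]

/-- if dual closed invariant sets are joined by lines then the duality condition holds -/
theorem dual_line_d (hG : Geo X G)
    (hS : ∀ A B : Set (ℝ → X), CI G A → CI G B → (∀ α ∈ A, ∀ β ∈ B, Du G α β) →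
      ∃ σ : ℝ → X, Isometry σ ∧ σ ∈ A ∧ (fun t => σ (-t)) ∈ B)
    {c : ℝ → X} (hc : Isometry c) : Du G c (fun t => c (-t)) := by
  have := hG.proper
  have := hG.isom
  have hX := hG.cn
  have h1 := CI_dual hG (isRay_neg hc)
  have h2 := CI_dual hG (isRay_pos hc)
  obtain ⟨σ, hσ, h3, h4⟩ := hS _ _ h1 h2 (fun α hα β hβ =>
    Du_comp hX hα.1 hβ.1 hc (Du_symm hα.2) hβ.2)
  exact Du_comp hX (isRay_pos hc) (isRay_neg hc) hσ h4.2 (Du_symm h3.2)

end

end Pool.Agent.R595.RR
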