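import Mathlib

/-!
# Poincaré series of a proper length function with quasi-geodesics (owner helper595)
-/

set_option autoImplicit false

universe u v

open Set Filter Topology
open scoped ENNReal

namespace Pool.Agent.R595.RR

/-- a proper length function on a group, with a coarse version of geodesics -/
structure Len {G : Type v} [Group G] (l : G → ℝ) (K : ℝ) : Prop where
  pos : 0 < K
  nonneg : ∀ g, 0 ≤ l g
  fin : ∀ R : ℝ, {g : G | l g ≤ R}.Finite
  mul : ∀ g h, l (g * h) ≤ l g + l h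
  inv : ∀ g, l g⁻¹ = l g
  dec : ∀ (g : G) (r : ℝ), 0 ≤ r → r ≤ l g →
    ∃ a : G, r - K ≤ l a ∧ l a ≤ r + K ∧ l (a⁻¹ * g) ≤ l g - r + K
  unb : ∀ r : ℝ, ∃ g, r ≤ l g

/-- the Poincaré series over the elements of `W` -/
noncomputable def PS {G : Type v} (l : G → ℝ) (s : ℝ) (W : Set G) : ℝ≥0∞ :=
  ∑' g : G, W.indicator (fun g => ENNReal.ofReal (Real.exp (-s * l g))) g

section

variable {G : Type v} [Group G] {l : G → ℝ} {K : ℝ}

lemma PS_mono_set (s : ℝ) {W W' : Set G} (h : W ⊆ W') : PS l s W ≤ PS l s W' := by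
  refine ENNReal.tsum_le_tsum fun g => ?_
  exact indicator_le_indicator_of_subset h (fun _ => zero_le) g

lemma PS_anti (hl : Len l K) {s t : ℝ} (h : s ≤ t) (W : Set G) : PS l t W ≤ PS l s W := by
  refine ENNReal.tsum_le_tsum fun g => ?_
  refine indicator_le_indicator ?_
  refine ENNReal.ofReal_le_ofReal (Real.exp_le_exp.2 ?_)
  have := hl.nonneg g
  nlinarith

/-- the sum over a finite set -/
lemma PS_finset (s : ℝ) (F : Finset G) :
    PS l s (F : Set G) = ENNReal.ofReal (∑ g ∈ F, Real.exp (-s * l g)) := by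
  classical
  rw [PS, tsum_eq_sum (s := F), ENNReal.ofReal_sum_of_nonneg (fun _ _ => (Real.exp_pos _).le)]
  · refine Finset.sum_congr rfl fun g hg => ?_
    rw [indicator_of_mem (Finset.mem_coe.2 hg)]
  · intro g hg
    rw [indicator_of_notMem (by simpa using hg)]

lemma PS_ball_ne_top (hl : Len l K) (s R : ℝ) : PS l s {g | l g ≤ R} ≠ ⊤ := by
  have h := PS_finset (l := l) s (hl.fin R).toFinset
  rw [(hl.fin R).coe_toFinset] at h
  rw [h]
  exact ENNReal.ofReal_ne_top

/-- if partial sums over balls are bounded then the series is bounded -/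
lemma PS_le_of_balls (hl : Len l K) (s : ℝ) (M : ℝ≥0∞)
    (h : ∀ R : ℝ, PS l s {g | l g ≤ R} ≤ M) : PS l s univ ≤ M := by
  classical
  rw [PS, ENNReal.tsum_eq_iSup_sum]
  refine iSup_le fun F => ?_
  obtain ⟨R, hR⟩ : ∃ R : ℝ, ∀ g ∈ F, l g ≤ R := by
    refine ⟨∑ g ∈ F, l g, fun g hg => ?_⟩
    exact Finset.single_le_sum (f := l) (fun x _ => hl.nonneg x) hg
  refine le_trans ?_ (h R)
  rw [PS]
  refine le_trans (Finset.sum_le_sum fun g hg => ?_) (ENNReal.sum_le_tsum F)
  rw [indicator_of_mem (mem_univ g), indicator_of_mem (show g ∈ {g | l g ≤ R} from hR g hg)]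

/-- REC -/
lemma rec_fin (hl : Len l K) {s r : ℝ} (hs : 0 ≤ s) (hr : K ≤ r) (W : Finset G)
    (hW : ∀ g, r - K ≤ l g → l g ≤ r + K → g ∈ W)
    (hsum : Real.exp (2 * K * s) * ∑ g ∈ W, Real.exp (-s * l g) ≤ 1 / 2) :
    PS l s univ ≠ ⊤ := by
  classical
  have hK := hl.pos
  have hr0 : 0 ≤ r := hK.le.trans hr
  have hdec : ∀ g : G, ∃ a : G, r ≤ l g → r - K ≤ l a ∧ l a ≤ r + K ∧
      l (a⁻¹ * g) ≤ l g - r + K := by
    intro g
    by_cases h : r ≤ l g
    · obtain ⟨a, ha⟩ := hl.dec g r hr0 h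
      exact ⟨a, fun _ => ha⟩
    · exact ⟨1, fun h' => absurd h' h⟩
  choose a ha using hdec
  have main : ∀ R : ℝ, PS l s {g | l g ≤ R} ≤ 2 * PS l s {g | l g ≤ r} := by
    intro R
    set Q : ℝ≥0∞ := PS l s {g | l g ≤ R} with hQ
    have hQt : Q ≠ ⊤ := PS_ball_ne_top hl s R
    set w : G → ℝ≥0∞ := fun g => ENNReal.ofReal (Real.exp (-s * l g)) with hw
    set F : G × G → ℝ≥0∞ := fun p =>
      (W : Set G).indicator (fun g => ENNReal.ofReal (Real.exp (2 * K * s)) * w g) p.1 *
        ({g | l g ≤ R} : Set G).indicator w p.2 with hF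
    have hinj : Function.Injective fun g : G => (a g, (a g)⁻¹ * g) := by
      intro g g' h
      have h1 := congrArg Prod.fst h
      have h2 := congrArg Prod.snd h
      simp only at h1 h2
      rw [h1] at h2
      exact mul_left_cancel h2
    have h1 : ∀ g, ({g | l g ≤ R} : Set G).indicator w g ≤
        ({g | l g ≤ r} : Set G).indicator w g + F (a g, (a g)⁻¹ * g) := by
      intro g
      by_cases hg : l g ≤ R
      · by_cases hg' : l g ≤ r
        · rw [indicator_of_mem (show g ∈ {g | l g ≤ R} from hg),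
            indicator_of_mem (show g ∈ {g | l g ≤ r} from hg')]
          exact le_self_add
        · have hg2 : r ≤ l g := by push Not at hg'; exact hg'.le
          obtain ⟨b1, b2, b3⟩ := ha g hg2
          have c1 : a g ∈ (W : Set G) := hW _ b1 b2
          have c2 : (a g)⁻¹ * g ∈ ({g | l g ≤ R} : Set G) := by
            show l ((a g)⁻¹ * g) ≤ R
            linarith
          rw [indicator_of_mem (show g ∈ {g | l g ≤ R} from hg),
            indicator_of_notMem (show g ∉ {g | l g ≤ r} from hg'), zero_add, hF]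
          simp only
          rw [indicator_of_mem c1, indicator_of_mem c2, hw]
          simp only
          rw [← ENNReal.ofReal_mul (Real.exp_pos _).le, ← Real.exp_add,
            ← ENNReal.ofReal_mul (Real.exp_pos _).le, ← Real.exp_add]
          refine ENNReal.ofReal_le_ofReal (Real.exp_le_exp.2 ?_)
          nlinarith
      · rw [indicator_of_notMem (show g ∉ {g | l g ≤ R} from hg)]
        exact zero_le
    have h2 : Q ≤ PS l s {g | l g ≤ r} + ∑' g, F (a g, (a g)⁻¹ * g) := by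
      rw [hQ, PS, PS, ← ENNReal.tsum_add]
      exact ENNReal.tsum_le_tsum h1
    have h3 : ∑' g, F (a g, (a g)⁻¹ * g) ≤ ∑' p, F p :=
      ENNReal.tsum_comp_le_tsum_of_injective hinj F
    have h4 : ∑' p, F p = (∑' g, (W : Set G).indicator
        (fun g => ENNReal.ofReal (Real.exp (2 * K * s)) * w g) g) * Q := by
      rw [hQ, PS, ENNReal.tsum_prod', ← ENNReal.tsum_mul_right]
      refine tsum_congr fun g => ?_
      rw [← ENNReal.tsum_mul_left]
    have h5 : ∑' g, (W : Set G).indicator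
        (fun g => ENNReal.ofReal (Real.exp (2 * K * s)) * w g) g ≤ 2⁻¹ := by
      have e1 : ∀ g, (W : Set G).indicator
          (fun g => ENNReal.ofReal (Real.exp (2 * K * s)) * w g) g =
          ENNReal.ofReal (Real.exp (2 * K * s)) * (W : Set G).indicator w g := by
        intro g
        by_cases h : g ∈ (W : Set G)
        · rw [indicator_of_mem h, indicator_of_mem h]
        · rw [indicator_of_notMem h, indicator_of_notMem h, mul_zero]
      rw [tsum_congr e1, ENNReal.tsum_mul_left]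
      have e2 := PS_finset (l := l) s W
      rw [PS] at e2
      rw [e2, ← ENNReal.ofReal_mul (Real.exp_pos _).le]
      refine (ENNReal.ofReal_le_ofReal hsum).trans ?_
      rw [one_div, ENNReal.ofReal_inv_of_pos (by norm_num)]
      norm_num
    have h6 : Q ≤ PS l s {g | l g ≤ r} + 2⁻¹ * Q := by
      refine h2.trans (add_le_add le_rfl (h3.trans ?_))
      rw [h4]
      exact mul_le_mul' h5 le_rfl
    have h7 : Q = 2⁻¹ * Q + 2⁻¹ * Q := by
      rw [← add_mul, ENNReal.inv_two_add_inv_two, one_mul]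
    have h8 : 2⁻¹ * Q ≤ PS l s {g | l g ≤ r} := by
      have hne : 2⁻¹ * Q ≠ ⊤ := ENNReal.mul_ne_top (by norm_num) hQt
      refine (ENNReal.add_le_add_iff_right hne).1 ?_
      rw [← h7]
      exact h6
    calc Q = 2 * (2⁻¹ * Q) := by
          rw [← mul_assoc, ENNReal.mul_inv_cancel (by norm_num) (by norm_num), one_mul]
      _ ≤ 2 * PS l s {g | l g ≤ r} := mul_le_mul' le_rfl h8
  have h9 := PS_le_of_balls hl s _ main
  exact ne_top_of_le_ne_top (ENNReal.mul_ne_top (by norm_num) (PS_ball_ne_top hl s r)) h9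

/-- the series converges for large `s` -/
lemma exists_fin (hl : Len l K) : ∃ s : ℝ, 0 ≤ s ∧ PS l s univ ≠ ⊤ := by
  have hK := hl.pos
  set W := (hl.fin (5 * K)).toFinset.filter fun g => 3 * K ≤ l g with hW
  obtain ⟨s, hs0, hs⟩ : ∃ s : ℝ, 0 ≤ s ∧ (W.card : ℝ) * Real.exp (-K * s) ≤ 1 / 2 := by
    have h1 : Tendsto (fun s : ℝ => (W.card : ℝ) * Real.exp (-K * s)) atTop (𝓝 (W.card * 0)) := by
      refine Tendsto.const_mul _ (Real.tendsto_exp_atBot.comp ?_)
      exact tendsto_id.const_mul_atTop_of_neg (by linarith)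
    rw [mul_zero] at h1
    obtain ⟨s, h2, h3⟩ := ((h1.eventually (ge_mem_nhds (by norm_num : (0 : ℝ) < 1 / 2))).and
      (eventually_ge_atTop 0)).exists
    exact ⟨s, h3, h2⟩
  refine ⟨s, hs0, rec_fin hl hs0 (r := 4 * K) (by linarith) W ?_ ?_⟩
  · intro g h1 h2
    rw [hW, Finset.mem_filter, (hl.fin _).mem_toFinset]
    exact ⟨by show l g ≤ 5 * K; linarith, by linarith⟩
  · have h1 : ∑ g ∈ W, Real.exp (-s * l g) ≤ ∑ g ∈ W, Real.exp (-s * (3 * K)) := by
      refine Finset.sum_le_sum fun g hg => Real.exp_le_exp.2 ?_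
      have := (Finset.mem_filter.1 hg).2
      nlinarith
    rw [Finset.sum_const, nsmul_eq_mul] at h1
    calc Real.exp (2 * K * s) * ∑ g ∈ W, Real.exp (-s * l g)
        ≤ Real.exp (2 * K * s) * (W.card * Real.exp (-s * (3 * K))) :=
          mul_le_mul_of_nonneg_left h1 (Real.exp_pos _).le
      _ = W.card * (Real.exp (2 * K * s) * Real.exp (-s * (3 * K))) := by ring
      _ = W.card * Real.exp (-K * s) := by
          rw [← Real.exp_add]
          congr 2
          ring
      _ ≤ 1 / 2 := hs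

/-- the set of convergence is open -/
lemma exists_lt (hl : Len l K) {s : ℝ} (hs : 0 < s) (hfin : PS l s univ ≠ ⊤) :
    ∃ s' : ℝ, 0 < s' ∧ s' < s ∧ PS l s' univ ≠ ⊤ := by
  classical
  have hK := hl.pos
  have hsum : Summable fun g : G => Real.exp (-s * l g) := by
    have h1 : ∑' g : G, ENNReal.ofReal (Real.exp (-s * l g)) ≠ ⊤ := by
      have e : PS l s univ = ∑' g : G, ENNReal.ofReal (Real.exp (-s * l g)) := by
        rw [PS]
        refine tsum_congr fun g => ?_
        rw [indicator_of_mem (mem_univ g)]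
      rwa [← e]
    have h2 := ENNReal.summable_toReal h1
    refine h2.congr fun g => ?_
    rw [ENNReal.toReal_ofReal (Real.exp_pos _).le]
  set ε : ℝ := Real.exp (-(2 * K * s)) / 4 with hε
  have hε0 : 0 < ε := by positivity
  obtain ⟨F, hF⟩ := summable_iff_vanishing_norm.1 hsum ε hε0
  set r : ℝ := ∑ g ∈ F, l g + 2 * K with hr
  have hF0 : 0 ≤ ∑ g ∈ F, l g := Finset.sum_nonneg fun g _ => hl.nonneg g
  set W := (hl.fin (r + K)).toFinset.filter fun g => r - K ≤ l g with hW
  have hdis : Disjoint W F := by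
    rw [Finset.disjoint_left]
    intro g hg hgF
    have h1 := (Finset.mem_filter.1 hg).2
    have h2 := Finset.single_le_sum (f := l) (fun x _ => hl.nonneg x) hgF
    linarith
  have h1 := hF W hdis
  rw [Real.norm_of_nonneg (Finset.sum_nonneg fun g _ => (Real.exp_pos _).le)] at h1
  set φ : ℝ → ℝ := fun s' => Real.exp (2 * K * s') * ∑ g ∈ W, Real.exp (-s' * l g) with hφ
  have hc : Continuous φ := by
    rw [hφ]
    fun_prop
  have h2 : φ s < 1 / 2 := by
    have e1 : φ s < Real.exp (2 * K * s) * ε := by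
      rw [hφ]
      exact mul_lt_mul_of_pos_left h1 (Real.exp_pos _)
    have e2 : Real.exp (2 * K * s) * ε = 1 / 4 := by
      rw [hε, mul_div_assoc', ← Real.exp_add, add_neg_cancel, Real.exp_zero]
    linarith
  have h3 : ∀ᶠ s' in 𝓝[<] s, φ s' < 1 / 2 :=
    ((hc.tendsto s).mono_left nhdsWithin_le_nhds).eventually (gt_mem_nhds h2)
  have h4 : ∀ᶠ s' in 𝓝[<] s, 0 < s' :=
    ((continuous_id.tendsto s).mono_left nhdsWithin_le_nhds).eventually (lt_mem_nhds hs)
  obtain ⟨s', ⟨h5, h6⟩, h7⟩ := ((h3.and h4).and self_mem_nhdsWithin).exists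
  refine ⟨s', h6, h7, rec_fin hl h6.le (r := r) (by linarith) W ?_ h5.le⟩
  intro g k1 k2
  rw [hW, Finset.mem_filter, (hl.fin _).mem_toFinset]
  exact ⟨k2, k1⟩

/-- the series diverges for `s = 0` -/
lemma zero_top (hl : Len l K) {s : ℝ} (hs : s ≤ 0) : PS l s univ = ⊤ := by
  classical
  have hinf : (univ : Set G).Infinite := by
    intro hf
    obtain ⟨M, hM⟩ := (hf.image l).bddAbove
    obtain ⟨g, hg⟩ := hl.unb (M + 1)
    have := hM (mem_image_of_mem l (mem_univ g))
    linarith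
  have h1 : ∑' _ : G, (1 : ℝ≥0∞) ≤ PS l s univ := by
    refine ENNReal.tsum_le_tsum fun g => ?_
    rw [indicator_of_mem (mem_univ g)]
    have h3 : (1 : ℝ) ≤ Real.exp (-s * l g) := by
      refine Real.one_le_exp ?_
      have := hl.nonneg g
      nlinarith
    have h4 := ENNReal.ofReal_le_ofReal h3
    rwa [ENNReal.ofReal_one] at h4
  have h2 : ∑' _ : G, (1 : ℝ≥0∞) = ⊤ := by
    have : Infinite G := by rwa [← Set.infinite_univ_iff]
    exact ENNReal.tsum_const_eq_top_of_ne_zero one_ne_zero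
  rw [h2] at h1
  exact top_le_iff.1 h1

/-- the critical exponent -/
noncomputable def crit {G : Type v} (l : G → ℝ) : ℝ := sInf {s : ℝ | PS l s univ ≠ ⊤}

lemma crit_bdd (hl : Len l K) : BddBelow {s : ℝ | PS l s univ ≠ ⊤} := by
  refine ⟨0, fun s hs => ?_⟩
  by_contra hcon
  push Not at hcon
  exact hs (zero_top hl hcon.le)

lemma fin_of_gt (hl : Len l K) {s : ℝ} (hs : crit l < s) : PS l s univ ≠ ⊤ := by
  obtain ⟨t, ht, hts⟩ := exists_lt_of_csInf_lt
    (by obtain ⟨s, -, hs⟩ := exists_fin hl; exact ⟨s, hs⟩) hs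
  exact ne_top_of_le_ne_top ht (PS_anti hl hts.le univ)

/-- the series diverges at the critical exponent -/
lemma crit_top (hl : Len l K) : PS l (crit l) univ = ⊤ := by
  by_contra hcon
  rcases le_or_gt (crit l) 0 with h | h
  · exact hcon (zero_top hl h)
  · obtain ⟨s', -, h2, h3⟩ := exists_lt hl h hcon
    have := csInf_le (crit_bdd hl) h3
    exact absurd h2 (not_lt.2 this)

/-- the series tends to infinity at the critical exponent -/
theorem tendsto_top (hl : Len l K) :
    Tendsto (fun s => PS l s univ) (𝓝[>] (crit l)) (𝓝 ⊤) := by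
  classical
  rw [ENNReal.tendsto_nhds_top_iff_nnreal]
  intro M
  have h1 := crit_top hl
  rw [PS, ENNReal.tsum_eq_iSup_sum] at h1
  have h2 : ((M : ℝ≥0∞)) < ⨆ F : Finset G, ∑ g ∈ F,
      (univ : Set G).indicator (fun g => ENNReal.ofReal (Real.exp (-(crit l) * l g))) g := by
    rw [h1]
    exact ENNReal.coe_lt_top
  obtain ⟨F, hF⟩ := lt_iSup_iff.1 h2
  have e : ∀ s : ℝ, ∑ g ∈ F, (univ : Set G).indicator
      (fun g => ENNReal.ofReal (Real.exp (-s * l g))) g =
      ENNReal.ofReal (∑ g ∈ F, Real.exp (-s * l g)) := by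
    intro s
    rw [ENNReal.ofReal_sum_of_nonneg (fun _ _ => (Real.exp_pos _).le)]
    refine Finset.sum_congr rfl fun g _ => ?_
    rw [indicator_of_mem (mem_univ g)]
  rw [e] at hF
  have hc : Continuous fun s : ℝ => ENNReal.ofReal (∑ g ∈ F, Real.exp (-s * l g)) := by
    refine ENNReal.continuous_ofReal.comp ?_
    fun_prop
  have h3 : ∀ᶠ s in 𝓝[>] (crit l), (M : ℝ≥0∞) < ENNReal.ofReal (∑ g ∈ F, Real.exp (-s * l g)) :=
    ((hc.tendsto (crit l)).mono_left nhdsWithin_le_nhds).eventually (lt_mem_nhds hF)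
  filter_upwards [h3] with s hs
  refine hs.trans_le ?_
  rw [← e, PS]
  exact ENNReal.sum_le_tsum F

/-- products of finite multiplicity -/
theorem prod_le (hl : Len l K) (A B : Set G) (C : ℕ)
    (hC : ∀ g : G, {a : G | a⁻¹ ∈ A ∧ a⁻¹ * g ∈ B}.encard ≤ C) {s : ℝ} (hs : 0 ≤ s) :
    PS l s A * PS l s B ≤ C * PS l s univ := by
  classical
  set w : G → ℝ≥0∞ := fun g => ENNReal.ofReal (Real.exp (-s * l g)) with hw
  have hww : ∀ a b : G, w a⁻¹ * w b ≤ w (a * b) := by
    intro a b
    simp only [hw]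
    rw [← ENNReal.ofReal_mul (Real.exp_pos _).le, ← Real.exp_add]
    refine ENNReal.ofReal_le_ofReal (Real.exp_le_exp.2 ?_)
    have h1 := hl.mul a b
    rw [hl.inv]
    nlinarith
  have h1 : PS l s A = ∑' a : G, A.indicator w a⁻¹ := by
    rw [PS]
    exact ((Equiv.inv G).tsum_eq (A.indicator w)).symm
  have h2 : PS l s A * PS l s B = ∑' a : G, ∑' b : G, A.indicator w a⁻¹ * B.indicator w b := by
    rw [h1, PS, ← ENNReal.tsum_mul_right]
    refine tsum_congr fun a => ?_
    rw [← ENNReal.tsum_mul_left]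
  have h3 : ∀ a : G, ∑' b : G, A.indicator w a⁻¹ * B.indicator w b ≤
      ∑' g : G, ({a : G | a⁻¹ ∈ A ∧ a⁻¹ * g ∈ B} : Set G).indicator (fun _ => w g) a := by
    intro a
    rw [← (Equiv.mulLeft a⁻¹).tsum_eq (fun b => A.indicator w a⁻¹ * B.indicator w b)]
    refine ENNReal.tsum_le_tsum fun g => ?_
    rw [Equiv.coe_mulLeft]
    by_cases ha : a⁻¹ ∈ A
    · by_cases hb : a⁻¹ * g ∈ B
      · rw [indicator_of_mem ha, indicator_of_mem hb,
          indicator_of_mem (show a ∈ {a : G | a⁻¹ ∈ A ∧ a⁻¹ * g ∈ B} from ⟨ha, hb⟩)]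
        have := hww a (a⁻¹ * g)
        rwa [mul_inv_cancel_left] at this
      · rw [indicator_of_notMem hb, mul_zero]
        exact zero_le
    · rw [indicator_of_notMem ha, zero_mul]
      exact zero_le
  have h4 : ∀ g : G, ∑' a : G, ({a : G | a⁻¹ ∈ A ∧ a⁻¹ * g ∈ B} : Set G).indicator
      (fun _ => w g) a ≤ C * w g := by
    intro g
    have e1 : ∀ a : G, ({a : G | a⁻¹ ∈ A ∧ a⁻¹ * g ∈ B} : Set G).indicator (fun _ => w g) a =
        ({a : G | a⁻¹ ∈ A ∧ a⁻¹ * g ∈ B} : Set G).indicator (fun _ => (1 : ℝ≥0∞)) a * w g := by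
      intro a
      by_cases h : a ∈ {a : G | a⁻¹ ∈ A ∧ a⁻¹ * g ∈ B}
      · rw [indicator_of_mem h, indicator_of_mem h, one_mul]
      · rw [indicator_of_notMem h, indicator_of_notMem h, zero_mul]
    rw [tsum_congr e1, ENNReal.tsum_mul_right]
    refine mul_le_mul' ?_ le_rfl
    rw [← tsum_subtype, ENNReal.tsum_set_one]
    have := hC g
    exact_mod_cast this
  rw [h2]
  calc ∑' a : G, ∑' b : G, A.indicator w a⁻¹ * B.indicator w b
      ≤ ∑' a : G, ∑' g : G, ({a : G | a⁻¹ ∈ A ∧ a⁻¹ * g ∈ B} : Set G).indicator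
          (fun _ => w g) a := ENNReal.tsum_le_tsum h3
    _ = ∑' g : G, ∑' a : G, ({a : G | a⁻¹ ∈ A ∧ a⁻¹ * g ∈ B} : Set G).indicator
          (fun _ => w g) a := ENNReal.tsum_comm
    _ ≤ ∑' g : G, C * w g := ENNReal.tsum_le_tsum h4
    _ = C * PS l s univ := by
        rw [ENNReal.tsum_mul_left, PS]
        congr 1
        refine tsum_congr fun g => ?_
        rw [indicator_of_mem (mem_univ g)]

/-- the normalised masses of the two sets: their product tends to zero -/
theorem null (hl : Len l K) (A B : Set G) (C : ℕ)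
    (hC : ∀ g : G, {a : G | a⁻¹ ∈ A ∧ a⁻¹ * g ∈ B}.encard ≤ C) :
    Tendsto (fun s => PS l s A / PS l s univ * (PS l s B / PS l s univ)) (𝓝[>] (crit l))
      (𝓝 0) := by
  have h1 : Tendsto (fun s => (C : ℝ≥0∞) / PS l s univ) (𝓝[>] (crit l)) (𝓝 (C / ⊤)) :=
    ENNReal.Tendsto.const_div (tendsto_top hl) (Or.inr (ENNReal.natCast_ne_top C))
  rw [ENNReal.div_top] at h1
  refine tendsto_of_tendsto_of_tendsto_of_le_of_le' tendsto_const_nhds h1
    (Eventually.of_forall fun s => zero_le) ?_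
  filter_upwards [self_mem_nhdsWithin, (tendsto_top hl).eventually
    (lt_mem_nhds (ENNReal.zero_lt_top))] with s hs hs2
  have hft : PS l s univ ≠ ⊤ := fin_of_gt hl hs
  have hne : PS l s univ ≠ 0 := hs2.ne'
  have hs0 : 0 ≤ s := by
    by_contra hcon
    push Not at hcon
    exact hft (zero_top hl hcon.le)
  have h2 := prod_le hl A B C hC hs0
  rw [ENNReal.div_eq_inv_mul, ENNReal.div_eq_inv_mul, ENNReal.div_eq_inv_mul]
  calc (PS l s univ)⁻¹ * PS l s A * ((PS l s univ)⁻¹ * PS l s B)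
      = (PS l s univ)⁻¹ * ((PS l s univ)⁻¹ * (PS l s A * PS l s B)) := by ring
    _ ≤ (PS l s univ)⁻¹ * ((PS l s univ)⁻¹ * (C * PS l s univ)) := by gcongr
    _ = (PS l s univ)⁻¹ * (C * ((PS l s univ)⁻¹ * PS l s univ)) := by ring
    _ = (PS l s univ)⁻¹ * C := by rw [ENNReal.inv_mul_cancel hne hft, mul_one]

end

end Pool.Agent.R595.RR
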