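import Pool.Agent.R595.RR.Main
import Pool.Agent.R595.RR.Series

/-!
# The displacement of a base point of a line is a proper length function (owner helper595)
-/

set_option autoImplicit false

universe u v

open Metric Set Filter Topology
open Pool.Agent.TH60.FP Pool.Agent.Y34.HB Pool.Agent.Y34.EL
open scoped ENNReal

namespace Pool.Agent.R595.RR

theorem len {X : Type u} [MetricSpace X] {G : Type v} [Group G] [MulAction G X] (hG : Geo X G)
    (σ : ℝ → X) (hσ : Isometry σ) :
    ∃ K : ℝ, Len (fun g : G => dist (σ 0) (g • σ 0)) K := by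
  have := hG.proper
  have := hG.isom
  have := hG.disc
  have hX := hG.cn
  set o : X := σ 0 with ho
  obtain ⟨A, hA, hcov⟩ := hG.cc
  obtain ⟨B, hB⟩ := hA.isBounded.subset_closedBall o
  set K : ℝ := max B 1 with hK
  have hK1 : 1 ≤ K := le_max_right _ _
  have hcl : ∀ y : X, ∃ a : G, dist y (a • o) ≤ K := by
    intro y
    obtain ⟨g, hg⟩ := hcov y
    refine ⟨g⁻¹, ?_⟩
    have h1 : dist (g • y) o ≤ B := mem_closedBall.1 (hB hg)
    have h2 : dist y (g⁻¹ • o) = dist (g • y) o := by
      rw [← dist_smul g y (g⁻¹ • o), smul_inv_smul]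
    rw [h2]
    exact h1.trans (le_max_left _ _)
  refine ⟨K, by linarith, fun g => dist_nonneg, fun R => fin_ball o R, ?_, ?_, ?_, ?_⟩
  · intro g k
    have h1 := dist_triangle o (g • o) ((g * k) • o)
    rw [mul_smul, dist_smul] at h1
    rw [mul_smul]
    exact h1
  · intro g
    rw [← dist_smul g o (g⁻¹ • o), smul_inv_smul, dist_comm]
  · intro g r hr hrg
    obtain ⟨y, hy⟩ := (t_stew X hX).1 o (g • o) r hr hrg
    obtain ⟨a, ha⟩ := hcl y
    have h1 := dist_triangle o (a • o) y
    have h2 := dist_triangle o y (a • o)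
    have h3 := dist_triangle (a • o) y (g • o)
    rw [dist_comm (a • o) y] at h1 h3
    rw [hy.1] at h1 h2
    rw [hy.2] at h3
    have h4 : dist o ((a⁻¹ * g) • o) = dist (a • o) (g • o) := by
      rw [← dist_smul a o ((a⁻¹ * g) • o), smul_smul, mul_inv_cancel_left]
    refine ⟨a, by linarith, by linarith, ?_⟩
    rw [h4]
    linarith
  · intro r
    obtain ⟨a, ha⟩ := hcl (σ (max r 0 + K))
    refine ⟨a, ?_⟩
    have h1 := dist_triangle o (a • o) (σ (max r 0 + K))
    rw [dist_comm (a • o)] at h1
    have h2 : dist o (σ (max r 0 + K)) = max r 0 + K := by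
      have h3 : 0 ≤ max r 0 + K := by
        have := le_max_right r 0
        linarith
      rw [ho, hσ.dist_eq, Real.dist_eq, zero_sub, abs_neg, abs_of_nonneg h3]
    rw [h2] at h1
    have := le_max_left r 0
    linarith

end Pool.Agent.R595.RR
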