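import Pool.Agent.Y34.EL.All

/-!
# Products of cones at the ends of a line without flat half-planes (owner helper595)
-/

set_option autoImplicit false

universe u v

open Metric Set Filter Topology
open Pool.Agent.TH60.FP Pool.Agent.Y34.HB Pool.Agent.Y34.EL

namespace Pool.Agent.R595.RR

/-- the geodesic from `o` to `p` passes within `1/4` of `y`, at distance `d(o, y)` from `o` -/
def Cone {X : Type u} [MetricSpace X] (o y : X) : Set X :=
  {p | ∃ z : X, On o p (dist o y) z ∧ dist z y ≤ 1 / 4}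

section

variable {X : Type u} [MetricSpace X]

/-- a point near a segment behind `o` is seen from `o` in the direction of the segment -/
lemma dir2 [ProperSpace X] (hX : CN X) {o m q n w y : X} {T R : ℝ} (hT : 0 < T) (hR : 0 ≤ R)
    (hm : dist o m ≤ R) (hn : dist m n + dist n q = dist m q) (hw : dist n w ≤ R)
    (hfar : 8 * T * R + 2 * R + T + 1 ≤ dist o w) (hy : On o w T y) :
    ∃ u, On o q T u ∧ dist y u ≤ 1 / 4 := by
  have hTR : 0 ≤ T * R := by positivity
  have hmq : 0 < dist m q := by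
    rcases (dist_nonneg : 0 ≤ dist m q).lt_or_eq with h | h
    · exact h
    · exfalso
      have h1 : dist m n = 0 := by
        have e1 : 0 ≤ dist m n := dist_nonneg
        have e2 : 0 ≤ dist n q := dist_nonneg
        linarith
      have h2 := dist_triangle4 o m n w
      rw [h1] at h2
      linarith
  set l : ℝ := dist m n / dist m q with hl
  have hl0 : 0 ≤ l := by positivity
  have hl1 : l ≤ 1 := by
    rw [hl, div_le_one hmq]
    have e2 : 0 ≤ dist n q := dist_nonneg
    linarith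
  have hn1 : On m q (l * dist m q) n := by
    have e : l * dist m q = dist m n := by rw [hl, div_mul_cancel₀ _ hmq.ne']
    refine ⟨e.symm, ?_⟩
    rw [e]
    linarith
  obtain ⟨z, hz⟩ := (t_stew X hX).1 o q (l * dist o q) (by positivity)
    (by nlinarith [(dist_nonneg : 0 ≤ dist o q)])
  have h1 := (t_cmp X hX).2 m q o q l n z hn1 hz hl0 hl1
  rw [dist_self, mul_zero, add_zero, dist_comm m o] at h1
  have h2 : dist n z ≤ R := by
    have : (1 - l) * dist o m ≤ 1 * dist o m :=
      mul_le_mul_of_nonneg_right (by linarith) dist_nonneg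
    linarith
  have h3 : dist w z ≤ 2 * R := by
    have := dist_triangle w n z
    rw [dist_comm w n] at this
    linarith
  have h4 : dist o w - 2 * R ≤ dist o z := by
    have := dist_triangle o z w
    rw [dist_comm z w] at this
    linarith
  obtain ⟨u, hu⟩ := (t_stew X hX).1 o z T hT.le (by linarith)
  refine ⟨u, Pool.Agent.Y975.EL.Close.on_ext (by rw [hz.1, hz.2]; ring) hu, ?_⟩
  exact Pool.Agent.Y975.EL.Close.close t_cmp hX hT hy hu h3 (by linarith) (by linarith)
    (by linarith) (by linarith)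

/-- cones at different scales -/
lemma scale [ProperSpace X] (hX : CN X) {σ : ℝ → X} (hσ : Isometry σ) {T t : ℝ} (ht : 0 ≤ t)
    (htT : t ≤ T) (hT : 0 < T) {ε : ℝ} (hε : ε = 1 ∨ ε = -1) {p z : X}
    (hz : On (σ 0) p T z) (hz' : dist z (σ (ε * T)) ≤ 1 / 4) {y : X} (hy : On (σ 0) p t y) :
    dist y (σ (ε * t)) ≤ 1 / 4 := by
  have hε1 : |ε| = 1 := by rcases hε with h | h <;> rw [h] <;> norm_num
  have hd : ∀ a b : ℝ, dist (σ a) (σ b) = |a - b| := fun a b => by
    rw [hσ.dist_eq, Real.dist_eq]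
  have e0 : dist (σ 0) (σ (ε * T)) = T := by
    rw [hd, zero_sub, abs_neg, abs_mul, hε1, one_mul, abs_of_pos hT]
  set l : ℝ := t / T with hl
  have hlT : l * T = t := by rw [hl, div_mul_cancel₀ _ hT.ne']
  have hl0 : 0 ≤ l := by positivity
  have hl1 : l ≤ 1 := by rw [hl, div_le_one hT]; exact htT
  -- the point at distance `t` on `[o, z]`
  obtain ⟨y', hy'⟩ := (t_stew X hX).1 (σ 0) z t ht (by rw [hz.1]; exact htT)
  have h1 : On (σ 0) p t y' :=
    Pool.Agent.Y975.EL.Close.on_ext (by rw [hz.1, hz.2]; ring) hy'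
  have h2 : y = y' := (t_stew X hX).2.1 _ _ _ _ _ hy h1
  have h3 : On (σ 0) z (l * dist (σ 0) z) y' := by rw [hz.1, hlT]; exact hy'
  have h4 : On (σ 0) (σ (ε * T)) (l * dist (σ 0) (σ (ε * T))) (σ (ε * t)) := by
    rw [e0, hlT]
    refine ⟨?_, ?_⟩
    · rw [hd, zero_sub, abs_neg, abs_mul, hε1, one_mul, abs_of_nonneg ht]
    · rw [e0, hd, ← mul_sub, abs_mul, hε1, one_mul, abs_sub_comm, abs_of_nonneg (by linarith)]
  have h5 := (t_cmp X hX).2 (σ 0) z (σ 0) (σ (ε * T)) l y' (σ (ε * t)) h3 h4 hl0 hl1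
  rw [dist_self, mul_zero, zero_add] at h5
  rw [h2]
  have h6 : l * dist z (σ (ε * T)) ≤ 1 * dist z (σ (ε * T)) :=
    mul_le_mul_of_nonneg_right hl1 dist_nonneg
  linarith

/-- the finite balls of the group -/
lemma fin_ball {G : Type v} [Group G] [MulAction G X] [ProperSpace X]
    [ProperlyDiscontinuousSMul G X] (o : X) (R : ℝ) : {g : G | dist o (g • o) ≤ R}.Finite := by
  have h1 := ProperlyDiscontinuousSMul.finite_disjoint_inter_image (Γ := G)
    (isCompact_singleton (x := o)) (isCompact_closedBall o R)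
  refine h1.subset ?_
  intro g hg
  refine ⟨g • o, ⟨o, rfl, rfl⟩, ?_⟩
  rw [Metric.mem_closedBall, dist_comm]
  exact hg

end

/-- **Main theorem**: products of the two cones have bounded multiplicity. -/
theorem main {X : Type u} [MetricSpace X] {G : Type v} [Group G] [MulAction G X] (hG : Geo X G)
    (hno : ∀ g : G, ¬ RankOne X g) (σ : ℝ → X) (hσ : Isometry σ) (hHP : HP σ = ∅) :
    ∃ (T : ℝ) (C : ℕ), 0 < T ∧ ∀ g : G,
      {a : G | a⁻¹ • σ 0 ∈ Cone (σ 0) (σ (-T)) ∧ (a⁻¹ * g) • σ 0 ∈ Cone (σ 0) (σ T)}.encard ≤ C := by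
  have := hG.proper
  have := hG.isom
  have := hG.disc
  have hX := hG.cn
  obtain ⟨T₁, L, hT₁, hL, hclose⟩ := t_closing X G hG σ hσ hHP
  obtain ⟨R0, T₂, hT₂, hRO0⟩ := t_ro X hX σ hσ hHP
  set R : ℝ := max R0 0 with hRdef
  have hR : 0 ≤ R := le_max_right _ _
  set T : ℝ := max T₁ T₂ with hTdef
  have hT1 : T₁ ≤ T := le_max_left _ _
  have hT2 : T₂ ≤ T := le_max_right _ _
  have hT : 0 < T := hT₁.trans_le hT1
  have hd : ∀ a b : ℝ, dist (σ a) (σ b) = |a - b| := fun a b => by
    rw [hσ.dist_eq, Real.dist_eq]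
  have hdT : dist (σ 0) (σ T) = T := by
    rw [hd, zero_sub, abs_neg, abs_of_pos hT]
  have hdT' : dist (σ 0) (σ (-T)) = T := by
    rw [hd, zero_sub, neg_neg, abs_of_pos hT]
  -- directions of the points of the cones at smaller scales
  have hV : ∀ q ∈ Cone (σ 0) (σ T), T ≤ dist (σ 0) q ∧ ∀ t : ℝ, 0 ≤ t → t ≤ T →
      ∀ y, On (σ 0) q t y → dist y (σ t) ≤ 1 / 4 := by
    rintro q ⟨z, hz, hz'⟩
    rw [hdT] at hz
    refine ⟨?_, fun t ht htT y hy => ?_⟩
    · have e2 := hz.2
      have e3 : 0 ≤ dist z q := dist_nonneg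
      linarith
    · have := scale hX hσ ht htT hT (Or.inl rfl : (1 : ℝ) = 1 ∨ (1 : ℝ) = -1) hz
        (by rw [one_mul]; exact hz') hy
      rwa [one_mul] at this
  have hU : ∀ q ∈ Cone (σ 0) (σ (-T)), T ≤ dist (σ 0) q ∧ ∀ t : ℝ, 0 ≤ t → t ≤ T →
      ∀ y, On (σ 0) q t y → dist y (σ (-t)) ≤ 1 / 4 := by
    rintro q ⟨z, hz, hz'⟩
    rw [hdT'] at hz
    refine ⟨?_, fun t ht htT y hy => ?_⟩
    · have e2 := hz.2
      have e3 : 0 ≤ dist z q := dist_nonneg
      linarith
    · have := scale hX hσ ht htT hT (Or.inr rfl : (-1 : ℝ) = 1 ∨ (-1 : ℝ) = -1) hz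
        (by rw [neg_one_mul]; exact hz') hy
      rwa [neg_one_mul] at this
  -- the gate
  have hgate : ∀ p ∈ Cone (σ 0) (σ (-T)), ∀ q ∈ Cone (σ 0) (σ T),
      ∃ m, dist p m + dist m q = dist p q ∧ dist (σ 0) m ≤ R := by
    intro p hp q hq
    obtain ⟨m, b1, b2⟩ := hRO0 p q (hT2.trans (hU p hp).1) (hT2.trans (hV q hq).1)
      (fun y hy => ((hU p hp).2 T₂ hT₂.le hT2 y hy).trans (by norm_num))
      (fun y hy => ((hV q hq).2 T₂ hT₂.le hT2 y hy).trans (by norm_num))
    exact ⟨m, b1, b2.trans (le_max_left _ _)⟩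
  set o : X := σ 0 with ho
  -- length
  set K₀ : ℝ := 8 * T * R + 4 * R + T + 1 + L with hK₀
  have hL0 : 0 < L := hT₁.trans_le hL
  have hTR : 0 ≤ T * R := by positivity
  have hinv : ∀ g : G, dist o (g⁻¹ • o) = dist o (g • o) := by
    intro g
    rw [← dist_smul g o (g⁻¹ • o), smul_inv_smul, dist_comm]
  -- two decompositions
  have key : ∀ g a a' : G, a⁻¹ • o ∈ Cone o (σ (-T)) → (a⁻¹ * g) • o ∈ Cone o (σ T) →
      a'⁻¹ • o ∈ Cone o (σ (-T)) → (a'⁻¹ * g) • o ∈ Cone o (σ T) →
      dist o (a' • o) < dist o (a • o) + K₀ := by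
    intro g a a' h1 h2 h1' h2'
    by_contra hcon
    push Not at hcon
    set h : G := a⁻¹ * a' with hh
    obtain ⟨m, hm1, hm2⟩ := hgate _ h1 _ h2
    obtain ⟨m', hm1', hm2'⟩ := hgate _ h1' _ h2'
    set p := a⁻¹ • o with hp
    set q := (a⁻¹ * g) • o with hq
    set p' := a'⁻¹ • o with hp'
    set q' := (a'⁻¹ * g) • o with hq'
    have ep : h • p' = p := by rw [hp', hh, hp, smul_smul, mul_assoc, mul_inv_cancel, mul_one]
    have eq' : h • q' = q := by
      rw [hq', hh, hq, smul_smul]
      congr 1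
      group
    have ep2 : h⁻¹ • p = p' := by rw [← ep, inv_smul_smul]
    have eq2 : h⁻¹ • q = q' := by rw [← eq', inv_smul_smul]
    have hpo : dist p o = dist o (a • o) := by rw [dist_comm, hp, hinv]
    have hpo' : dist p' o = dist o (a' • o) := by rw [dist_comm, hp', hinv]
    set n := h • m' with hn
    have hn1 : dist p n + dist n q = dist p q := by
      rw [← ep, ← eq', hn, dist_smul, dist_smul, dist_smul]
      exact hm1'
    have hn2 : dist n (h • o) ≤ R := by rw [hn, dist_smul, dist_comm]; exact hm2'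
    have hph : dist p (h • o) = dist o (a' • o) := by rw [← ep, dist_smul]; exact hpo'
    -- positions
    have c1 : dist p m ≤ dist o (a • o) + R := by
      have := dist_triangle p o m
      rw [hpo] at this
      linarith
    have c2 : dist o (a' • o) - R ≤ dist p n := by
      have := dist_triangle p n (h • o)
      rw [hph] at this
      linarith
    have c3 : dist p m ≤ dist p n := by linarith
    -- `n` is on `[m, q]`
    have hmn : dist m n = dist p n - dist p m :=
      Pool.Agent.Y350.EL.on_dist t_stew hX (o := p) (q := q) dist_nonneg c3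
        ⟨rfl, by linarith⟩ ⟨rfl, by linarith⟩
    have hmnq : dist m n + dist n q = dist m q := by linarith
    have hnmp : dist n m + dist m p = dist n p := by
      rw [dist_comm n m, hmn, dist_comm m p, dist_comm n p]
      ring
    have hoh : 8 * T * R + 2 * R + T + 1 + L ≤ dist o (h • o) := by
      have e1 := dist_triangle4 p m n (h • o)
      have e2 := dist_triangle4 m o (h • o) n
      rw [hph] at e1
      rw [dist_comm m o, dist_comm (h • o) n] at e2
      have e3 := dist_triangle p o (h • o)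
      rw [hph, hpo] at e3
      linarith
    apply hno h
    refine hclose h (by linarith) ?_ ?_
    · intro y hy
      -- enlarge the scale from `T₁` to `T`
      obtain ⟨w, hw⟩ := (t_stew X hX).1 o (h • o) T₁ hT₁.le (by linarith)
      obtain ⟨v, hv⟩ := (t_stew X hX).1 o (h • o) T hT.le (by linarith)
      obtain ⟨u, hu, hyu⟩ := dir2 hX hT₁ hR (y := y) hm2 hmnq hn2 (by nlinarith) hy
      have e1 := (hV q h2).2 T₁ hT₁.le hT1 u hu
      have e2 := dist_triangle y u (σ T₁)
      linarith
    · intro y hy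
      have f1 : dist o (h⁻¹ • n) ≤ R := by
        rw [hn, inv_smul_smul]
        exact hm2'
      have f2 : dist (h⁻¹ • n) (h⁻¹ • m) + dist (h⁻¹ • m) p' = dist (h⁻¹ • n) p' := by
        rw [← ep2, dist_smul, dist_smul, dist_smul]
        exact hnmp
      have f3 : dist (h⁻¹ • m) (h⁻¹ • o) ≤ R := by
        rw [dist_smul, dist_comm]
        exact hm2
      obtain ⟨u, hu, hyu⟩ := dir2 hX hT₁ hR (y := y) f1 f2 f3 (by rw [hinv]; nlinarith) hy
      have e1 := (hU p' h1').2 T₁ hT₁.le hT1 u hu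
      have e2 := dist_triangle y u (σ (-T₁))
      linarith
  -- finitely many
  set ρ : ℝ := K₀ + 4 * R with hρ
  have hfin := fin_ball (G := G) o ρ
  refine ⟨T, hfin.toFinset.card, hT, fun g => ?_⟩
  set S : Set G := {a : G | a⁻¹ • o ∈ Cone o (σ (-T)) ∧ (a⁻¹ * g) • o ∈ Cone o (σ T)} with hS
  rcases S.eq_empty_or_nonempty with hSe | ⟨a, ha⟩
  · rw [hSe, encard_empty]
    exact zero_le
  have hsub : S ⊆ (fun h => a * h) '' (hfin.toFinset : Set G) := by
    intro a' ha'
    refine ⟨a⁻¹ * a', ?_, by simp⟩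
    rw [Finset.mem_coe, hfin.mem_toFinset, mem_setOf_eq]
    have k1 := key g a a' ha.1 ha.2 ha'.1 ha'.2
    have k2 := key g a' a ha'.1 ha'.2 ha.1 ha.2
    obtain ⟨m, hm1, hm2⟩ := hgate _ ha.1 _ ha.2
    obtain ⟨m', hm1', hm2'⟩ := hgate _ ha'.1 _ ha'.2
    -- points on `[o, g o]`
    have hq1 : dist o (a • m) + dist (a • m) (g • o) = dist o (g • o) := by
      rw [← dist_smul a⁻¹ o (a • m), ← dist_smul a⁻¹ (a • m) (g • o), ← dist_smul a⁻¹ o (g • o),
        inv_smul_smul, smul_smul]
      exact hm1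
    have hq1' : dist o (a' • m') + dist (a' • m') (g • o) = dist o (g • o) := by
      rw [← dist_smul a'⁻¹ o (a' • m'), ← dist_smul a'⁻¹ (a' • m') (g • o),
        ← dist_smul a'⁻¹ o (g • o), inv_smul_smul, smul_smul]
      exact hm1'
    have hq2 : dist (a • o) (a • m) ≤ R := by rw [dist_smul]; exact hm2
    have hq2' : dist (a' • o) (a' • m') ≤ R := by rw [dist_smul]; exact hm2'
    have hdd : dist (a • m) (a' • m') = |dist o (a • m) - dist o (a' • m')| := by
      rcases le_total (dist o (a • m)) (dist o (a' • m')) with hle | hle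
      · rw [Pool.Agent.Y350.EL.on_dist t_stew hX (o := o) (q := g • o) dist_nonneg hle
          ⟨rfl, by linarith⟩ ⟨rfl, by linarith⟩, abs_sub_comm, abs_of_nonneg (by linarith)]
      · rw [dist_comm, Pool.Agent.Y350.EL.on_dist t_stew hX (o := o) (q := g • o) dist_nonneg hle
          ⟨rfl, by linarith⟩ ⟨rfl, by linarith⟩, abs_of_nonneg (by linarith)]
    have r1 := dist_triangle o (a • m) (a • o)
    have r2 := dist_triangle o (a • o) (a • m)
    have r3 := dist_triangle o (a' • m') (a' • o)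
    have r4 := dist_triangle o (a' • o) (a' • m')
    rw [dist_comm (a • m) (a • o)] at r1
    rw [dist_comm (a' • m') (a' • o)] at r3
    have hd1 : dist (a • m) (a' • m') ≤ K₀ + 2 * R := by
      rw [hdd, abs_le]
      constructor <;> linarith
    have r5 := dist_triangle4 (a • o) (a • m) (a' • m') (a' • o)
    rw [dist_comm (a' • m') (a' • o)] at r5
    have r6 : dist o ((a⁻¹ * a') • o) = dist (a • o) (a' • o) := by
      rw [← dist_smul a o ((a⁻¹ * a') • o), smul_smul, mul_inv_cancel_left]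
    rw [r6]
    linarith
  calc S.encard ≤ ((fun h => a * h) '' (hfin.toFinset : Set G)).encard := encard_le_encard hsub
    _ ≤ (hfin.toFinset : Set G).encard := encard_image_le _ _
    _ = (hfin.toFinset.card : ℕ∞) := by rw [encard_coe_eq_coe_finsetCard]

end Pool.Agent.R595.RR
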