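import Pool.Agent.R595.RR.Invol

/-!
# Isometries which normalize the group and move all points across a bounded set (owner helper595)
-/

set_option autoImplicit false

universe u v

open Metric Set Filter Topology
open Pool.Agent.TH60.FP Pool.Agent.Y34.HB Pool.Agent.Y34.EL

namespace Pool.Agent.R595.RR

section

variable {X : Type u} [MetricSpace X] {G : Type v} [Group G] [MulAction G X]

/-- a segment which starts near the origin of the ray `c` and passes near `c S` -/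
lemma cone_near [ProperSpace X] (hX : CN X) {c : ℝ → X} (hc : IsRay c) {t S δ R d0 : ℝ}
    (ht : 0 < t) (hts : 2 * t ≤ S) (hδ : 0 < δ) (hδ1 : δ ≤ 1 / 2) (hδt : 8 * (t * δ) ≤ 1)
    (hE : R + d0 ≤ δ * S) {p m w : X} (hm : dist p m + dist m w = dist p w)
    (hp : dist p (c 0) ≤ d0) (hmS : dist m (c S) ≤ R) : w ∈ Cone (c 0) (c t) := by
  obtain ⟨m', hm', hmm'⟩ := fellow hX (a' := c 0) (b' := w) hm
  rw [dist_self, add_zero] at hmm'
  refine cone_of hX hc ht hts hδ hδ1 hδt hm' ?_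
  have h6 := dist_triangle m' m (c S)
  rw [dist_comm m' m] at h6
  linarith

/-- every point `ξ` at infinity is dual to `s ξ` -/
theorem dual_s (hG : Geo X G) (s : X ≃ᵢ X)
    (hn : ∀ g : G, ∃ g' : G, ∀ x, s (g • x) = g' • s x)
    {o : X} {B : ℝ} (hb : ∀ x : X, ∃ m : X, dist x m + dist m (s x) = dist x (s x) ∧ dist m o ≤ B)
    {c : ℝ → X} (hc : IsRay c) : Du G c (fun t => s (c t)) := by
  have := hG.proper
  have := hG.isom
  have hX := hG.cn
  have hB : 0 ≤ B := by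
    obtain ⟨m, -, hm⟩ := hb o
    exact dist_nonneg.trans hm
  intro t ht
  obtain ⟨K, hK, hd⟩ := dense_orbit hG o
  obtain ⟨d0, hd0⟩ : ∃ d : ℝ, d = dist (s (c 0)) (c 0) := ⟨_, rfl⟩
  have hd00 : 0 ≤ d0 := by rw [hd0]; exact dist_nonneg
  obtain ⟨S, δ, hts, hδ0, hδ1, hδt, hE⟩ := scales t (K + B + d0) ht (by positivity)
  obtain ⟨a, ha⟩ := hd (c S)
  obtain ⟨a', ha'⟩ := hn a⁻¹
  obtain ⟨g, hg⟩ : ∃ g : G, g = a * a' := ⟨_, rfl⟩
  have hφ : ∀ x, g • s x = a • s (a⁻¹ • x) := by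
    intro x
    rw [ha', hg]
    exact mul_smul _ _ _
  -- segments from `x` to `g s x` pass near `c S`
  have key : ∀ x : X, ∃ m : X, dist x m + dist m (g • s x) = dist x (g • s x) ∧
      dist m (c S) ≤ K + B := by
    intro x
    obtain ⟨m, h1, h2⟩ := hb (a⁻¹ • x)
    have e1 : dist x (a • m) = dist (a⁻¹ • x) m := by
      rw [← dist_smul a (a⁻¹ • x) m, smul_inv_smul]
    have e2 : dist (a • m) (g • s x) = dist m (s (a⁻¹ • x)) := by
      rw [hφ, dist_smul]
    have e3 : dist x (g • s x) = dist (a⁻¹ • x) (s (a⁻¹ • x)) := by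
      rw [hφ, ← dist_smul a (a⁻¹ • x) (s (a⁻¹ • x)), smul_inv_smul]
    refine ⟨a • m, by rw [e1, e2, e3, h1], ?_⟩
    have h3 := dist_triangle (a • m) (a • o) (c S)
    rw [dist_smul, dist_comm (a • o) (c S)] at h3
    linarith
  refine ⟨g, ?_, ?_⟩
  · obtain ⟨m, h1, h2⟩ := key (s.symm (c 0))
    rw [s.apply_symm_apply] at h1
    refine cone_near hX hc ht hts hδ0 hδ1 hδt hE h1 ?_ h2
    have h3 : dist (s.symm (c 0)) (c 0) = d0 := by
      rw [hd0, ← s.isometry.dist_eq (s.symm (c 0)) (c 0), s.apply_symm_apply, dist_comm]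
    exact h3.le
  · obtain ⟨w, hw⟩ : ∃ w : X, g⁻¹ • s (c 0) = s w := ⟨s.symm (g⁻¹ • s (c 0)), by
      rw [s.apply_symm_apply]⟩
    have hw' : g • s w = s (c 0) := by rw [← hw, smul_inv_smul]
    obtain ⟨m, h1, h2⟩ := key w
    rw [hw'] at h1
    have h3 : dist (s (c 0)) m + dist m w = dist (s (c 0)) w := by
      rw [dist_comm (s (c 0)) m, dist_comm m w, dist_comm (s (c 0)) w]
      linarith
    have h6 : w ∈ Cone (c 0) (c t) :=
      cone_near hX hc ht hts hδ0 hδ1 hδt hE h3 hd0.ge h2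
    rw [hw]
    obtain ⟨z, hz, hz'⟩ := h6
    refine ⟨s z, ⟨?_, ?_⟩, ?_⟩
    · simp only [s.isometry.dist_eq]
      exact hz.1
    · simp only [s.isometry.dist_eq]
      exact hz.2
    · simp only [s.isometry.dist_eq]
      exact hz'

/-- the duality condition -/
theorem dual_line_s (hG : Geo X G) (s : X ≃ᵢ X)
    (hn : ∀ g : G, ∃ g' : G, ∀ x, s (g • x) = g' • s x)
    {o : X} {B : ℝ} (hb : ∀ x : X, ∃ m : X, dist x m + dist m (s x) = dist x (s x) ∧ dist m o ≤ B)
    {σ : ℝ → X} (hσ : Isometry σ) : Du G σ (fun t => σ (-t)) := by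
  have := hG.proper
  have := hG.isom
  have hX := hG.cn
  have hτ : Isometry (fun t => s.symm (σ t)) := s.symm.isometry.comp hσ
  have h1 : Du G (fun t => s.symm (σ (-t))) (fun t => s (s.symm (σ (-t)))) :=
    dual_s hG s hn hb (isRay_neg hτ)
  have h2 : Du G (fun t => s.symm (σ t)) (fun t => s (s.symm (σ t))) :=
    dual_s hG s hn hb (isRay_pos hτ)
  simp only [s.apply_symm_apply] at h1 h2
  exact Du_symm (Du_comp hX (isRay_neg hσ) (isRay_pos hσ) hτ (Du_symm h1) h2)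

/-- involutions with finite centralizer -/
lemma invol_s (hG : Geo X G) (o : X) (r : G) (hr : r ^ 2 = 1)
    (hfin : (Subgroup.centralizer {r} : Set G).Finite) :
    ∃ (s : X ≃ᵢ X) (B : ℝ), (∀ g : G, ∃ g' : G, ∀ x, s (g • x) = g' • s x) ∧
      ∀ x : X, ∃ m : X, dist x m + dist m (s x) = dist x (s x) ∧ dist m o ≤ B := by
  have := hG.isom
  obtain ⟨B, -, hfix⟩ := fix_bounded hG o r hfin
  refine ⟨IsometryEquiv.constSMul r, B, fun g => ⟨r * g * r⁻¹, fun x => ?_⟩, fun x => ?_⟩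
  · show r • g • x = (r * g * r⁻¹) • r • x
    simp only [smul_smul]
    congr 1
    group
  · obtain ⟨m, h1, h2⟩ := mid_fixed hG.cn r (by rw [← pow_two]; exact hr) x
    exact ⟨m, h2, hfix m h1⟩

/-- rank one or half-planes -/
theorem dual_rank (hG : Geo X G) (hd : ∀ c : ℝ → X, Isometry c → Du G c (fun t => c (-t)))
    {c : ℝ → X} (hc : Isometry c) (hHP : HP c = ∅) : ∃ g : G, RankOne X g :=
  Du_close hG hc hHP (hd c hc)

end

end Pool.Agent.R595.RR
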